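import Pool.Agent.P.MP_14bd88_co.Tree

namespace Pool.Agent.P.MP_14bd88_co

open Finset

namespace RT

variable {V : Type} [Fintype V] (T : RT V)

/-- second vertex of a block -/
noncomputable def isQ : V → Prop :=
  (exists_rec (T := T) False (fun v q => v = T.hv (T.par v) ∧ ¬ q)).choose

open Classical in
/-- side (up or down) of a vertex -/
noncomputable def sg : V → ℤ :=
  (exists_rec (T := T) (1 : ℤ) (fun v s => if T.isQ v then -s else s)).choose

open Classical in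
/-- first vertex of the block -/
noncomputable def blk (u : V) : V := if T.isQ u then T.par u else u

/-- signed order key -/
noncomputable def key (c : V) : ℤ := T.sg (T.par c) * T.ord c

open Classical in
/-- group of a component -/
noncomputable def gam (c : V) : ℕ :=
  if c = T.hv (T.par c) then 4
  else if T.isQ (T.par c) then (if T.key (T.hv (T.par c)) < T.key c then 1 else 3)
  else (if T.key c < T.key (T.hv (T.par c)) then 0 else 2)

/-- left to right order of the components of a block -/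
noncomputable def kap (c : V) : ℕ ×ₗ ℤ := toLex (T.gam c, T.key c)

open Classical in
/-- roots of the components of a block -/
noncomputable def R (P : V) : Finset V :=
  univ.filter (fun c => c ≠ T.r ∧ ¬ T.isQ c ∧ T.blk (T.par c) = P)

/-- weight of a block -/
noncomputable def B (P : V) : ℕ := 2 + ∑ c ∈ (T.R P).filter (fun c => T.gam c ≤ 3), T.sz c

/-- level of a vertex -/
noncomputable def lv (u : V) : ℕ := Nat.log 2 (min (2 * T.B (T.blk u)) (T.sz (T.blk u)))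

variable {T}

lemma not_isQ_r : ¬ T.isQ T.r := by
  have := (exists_rec (T := T) False (fun v q => v = T.hv (T.par v) ∧ ¬ q)).choose_spec.1
  unfold isQ
  rw [this]
  exact id

lemma isQ_iff {v : V} (h : v ≠ T.r) : T.isQ v ↔ v = T.hv (T.par v) ∧ ¬ T.isQ (T.par v) := by
  have := (exists_rec (T := T) False (fun v q => v = T.hv (T.par v) ∧ ¬ q)).choose_spec.2 v h
  unfold isQ
  rw [this]

lemma isQ.ne_r {v : V} (h : T.isQ v) : v ≠ T.r := fun e => not_isQ_r (e ▸ h)

lemma isQ.eq_hv {v : V} (h : T.isQ v) : v = T.hv (T.par v) := ((isQ_iff h.ne_r).1 h).1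

lemma isQ.par {v : V} (h : T.isQ v) : ¬ T.isQ (T.par v) := ((isQ_iff h.ne_r).1 h).2

lemma isQ.ch {v : V} (h : T.isQ v) : T.Ch (T.par v) v := ⟨h.ne_r, rfl⟩

lemma sg_r : T.sg T.r = 1 := by
  classical
  exact (exists_rec (T := T) (1 : ℤ) (fun v s => if T.isQ v then -s else s)).choose_spec.1

lemma sg_of_isQ {v : V} (h : T.isQ v) : T.sg v = - T.sg (T.par v) := by
  classical
  have := (exists_rec (T := T) (1 : ℤ)
    (fun v s => if T.isQ v then -s else s)).choose_spec.2 v h.ne_r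
  rw [if_pos h] at this
  exact this

lemma sg_of_not {v : V} (hr : v ≠ T.r) (h : ¬ T.isQ v) : T.sg v = T.sg (T.par v) := by
  classical
  have := (exists_rec (T := T) (1 : ℤ)
    (fun v s => if T.isQ v then -s else s)).choose_spec.2 v hr
  rw [if_neg h] at this
  exact this

lemma sg_cases (v : V) : T.sg v = 1 ∨ T.sg v = -1 := by
  have h := desc_root (T := T) v
  induction h with
  | refl => exact Or.inl sg_r
  | step w hw _ ih =>
    by_cases hq : T.isQ w
    · rw [sg_of_isQ hq]; omega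
    · rw [sg_of_not hw hq]; exact ih

lemma blk_of_isQ {u : V} (h : T.isQ u) : T.blk u = T.par u := by simp [blk, h]

lemma blk_of_not {u : V} (h : ¬ T.isQ u) : T.blk u = u := by simp [blk, h]

lemma not_isQ_blk (u : V) : ¬ T.isQ (T.blk u) := by
  by_cases h : T.isQ u
  · rw [blk_of_isQ h]; exact h.par
  · rw [blk_of_not h]; exact h

lemma blk_blk (u : V) : T.blk (T.blk u) = T.blk u := blk_of_not (not_isQ_blk u)

lemma lv_blk (u : V) : T.lv (T.blk u) = T.lv u := by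
  unfold lv; rw [blk_blk]

lemma lv_congr {u v : V} (h : T.blk u = T.blk v) : T.lv u = T.lv v := by
  unfold lv; rw [h]

lemma desc_blk (u : V) : T.Desc (T.blk u) u := by
  by_cases h : T.isQ u
  · rw [blk_of_isQ h]; exact h.ch.desc
  · rw [blk_of_not h]; exact Desc.refl

lemma mem_R {P c : V} : c ∈ T.R P ↔ c ≠ T.r ∧ ¬ T.isQ c ∧ T.blk (T.par c) = P := by
  simp [R]

lemma isQ_hv {P c : V} (hP : ¬ T.isQ P) (h : T.Ch P c) : T.isQ (T.hv P) := by
  rw [isQ_iff h.hv.1, h.hv.2]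
  exact ⟨rfl, hP⟩

/-- two different members of a block -/
lemma blk_eq {u v : V} (h : T.blk u = T.blk v) (hne : u ≠ v) :
    (T.isQ u ∧ ¬ T.isQ v ∧ T.par u = v) ∨ (T.isQ v ∧ ¬ T.isQ u ∧ T.par v = u) := by
  by_cases hu : T.isQ u <;> by_cases hv : T.isQ v
  · rw [blk_of_isQ hu, blk_of_isQ hv] at h
    exact absurd (by rw [hu.eq_hv, hv.eq_hv, h]) hne
  · rw [blk_of_isQ hu, blk_of_not hv] at h
    exact Or.inl ⟨hu, hv, h⟩
  · rw [blk_of_not hu, blk_of_isQ hv] at h
    exact Or.inr ⟨hv, hu, h.symm⟩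
  · rw [blk_of_not hu, blk_of_not hv] at h
    exact absurd h hne

lemma sg_ne_of_blk {u v : V} (h : T.blk u = T.blk v) (hne : u ≠ v) : T.sg u = - T.sg v := by
  rcases blk_eq h hne with ⟨h1, -, h2⟩ | ⟨h1, -, h2⟩
  · rw [sg_of_isQ h1, h2]
  · rw [sg_of_isQ h1, h2, neg_neg]

lemma R_desc {P c : V} (h : c ∈ T.R P) : T.Desc P c := by
  obtain ⟨h1, -, h3⟩ := mem_R.1 h
  exact Desc.step c h1 (h3 ▸ desc_blk _)

lemma R_sz_lt {P c : V} (h : c ∈ T.R P) : T.sz c < T.sz P := by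
  obtain ⟨h1, -, h3⟩ := mem_R.1 h
  exact (Ch.sz_lt (T := T) ⟨h1, rfl⟩).trans_le (h3 ▸ (desc_blk _).sz_le)

lemma R_dep_lt {P c : V} (h : c ∈ T.R P) : T.dep P < T.dep c := by
  obtain ⟨h1, -, h3⟩ := mem_R.1 h
  have := (desc_blk (T := T) (T.par c)).dep_le
  rw [h3] at this
  have := T.dep_par c h1
  omega

lemma Desc.decomp {P w : V} (hP : ¬ T.isQ P) (h : T.Desc P w) :
    T.blk w = P ∨ ∃ c ∈ T.R P, T.Desc c w := by
  rcases h.exists_ch with rfl | ⟨c, hc, h1⟩
  · exact Or.inl (blk_of_not hP)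
  · by_cases hq : T.isQ c
    · rcases h1.exists_ch with rfl | ⟨c', hc', h2⟩
      · exact Or.inl (by rw [blk_of_isQ hq, hc.2])
      · refine Or.inr ⟨c', mem_R.2 ⟨hc'.1, fun h3 => h3.par (hc'.2 ▸ hq), ?_⟩, h2⟩
        rw [hc'.2, blk_of_isQ hq, hc.2]
    · exact Or.inr ⟨c, mem_R.2 ⟨hc.1, hq, by rw [hc.2, blk_of_not hP]⟩, h1⟩

lemma gam_le (c : V) : T.gam c ≤ 4 := by
  unfold gam; split_ifs <;> omega

lemma gam_eq_four {c : V} : T.gam c = 4 ↔ c = T.hv (T.par c) := by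
  unfold gam
  by_cases h : c = T.hv (T.par c)
  · rw [if_pos h]; exact ⟨fun _ => h, fun _ => rfl⟩
  · rw [if_neg h]
    refine ⟨fun h1 => ?_, fun h1 => absurd h1 h⟩
    split_ifs at h1 <;> omega

lemma isQ_par_of_four {P c : V} (h : c ∈ T.R P) (h4 : T.gam c = 4) : T.isQ (T.par c) := by
  obtain ⟨h1, h2, -⟩ := mem_R.1 h
  by_contra h3
  exact h2 ((isQ_iff h1).2 ⟨gam_eq_four.1 h4, h3⟩)

lemma isQ_par_iff {P c : V} (h : c ∈ T.R P) :
    T.isQ (T.par c) ↔ (T.gam c = 1 ∨ T.gam c = 3 ∨ T.gam c = 4) := by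
  by_cases h4 : T.gam c = 4
  · simp [h4, isQ_par_of_four h h4]
  · have h5 := h4
    rw [gam_eq_four] at h5
    unfold gam
    split_ifs <;> simp_all

lemma key_inj {c c' : V} (hc : c ≠ T.r) (hc' : c' ≠ T.r) (hp : T.par c = T.par c')
    (h : T.key c = T.key c') : c = c' := by
  refine T.ord_inj c c' hc hc' hp ?_
  unfold key at h
  rw [hp] at h
  rcases sg_cases (T := T) (T.par c') with h1 | h1 <;> rw [h1] at h <;> omega

lemma par_eq_of_gam {P c c' : V} (h : c ∈ T.R P) (h' : c' ∈ T.R P) (hg : T.gam c = T.gam c') :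
    T.par c = T.par c' := by
  by_contra hne
  have h1 := isQ_par_iff h
  have h2 := isQ_par_iff h'
  rw [hg, ← h2] at h1
  rcases blk_eq ((mem_R.1 h).2.2.trans (mem_R.1 h').2.2.symm) hne with ⟨h3, h4, -⟩ | ⟨h3, h4, -⟩
  · exact h4 (h1.1 h3)
  · exact h4 (h1.2 h3)

lemma kap_inj {P c c' : V} (h : c ∈ T.R P) (h' : c' ∈ T.R P) (hk : T.kap c = T.kap c') :
    c = c' := by
  have h1 : (T.gam c, T.key c) = (T.gam c', T.key c') := toLex.injective hk
  rw [Prod.mk.injEq] at h1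
  exact key_inj (mem_R.1 h).1 (mem_R.1 h').1 (par_eq_of_gam h h' h1.1) h1.2

lemma kap_lt {c c' : V} :
    T.kap c < T.kap c' ↔ T.gam c < T.gam c' ∨ (T.gam c = T.gam c' ∧ T.key c < T.key c') := by
  unfold kap
  rw [Prod.Lex.toLex_lt_toLex]

lemma eq_of_four {P c c' : V} (h : c ∈ T.R P) (h' : c' ∈ T.R P) (h4 : T.gam c = 4)
    (h4' : T.gam c' = 4) : c = c' := by
  rw [gam_eq_four.1 h4, gam_eq_four.1 h4', par_eq_of_gam h h' (h4.trans h4'.symm)]

lemma sz_eq_R {P c : V} (hP : ¬ T.isQ P) (h : T.Ch P c) :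
    T.sz P = 2 + ∑ c ∈ T.R P, T.sz c := by
  classical
  have hq := isQ_hv hP h
  have e : T.R P = (T.chs P).erase (T.hv P) ∪ T.chs (T.hv P) := by
    ext c
    simp only [mem_R, mem_union, mem_erase, mem_chs]
    constructor
    · rintro ⟨h1, h2, h3⟩
      by_cases h4 : T.isQ (T.par c)
      · rw [blk_of_isQ h4] at h3
        exact Or.inr ⟨h1, by rw [h4.eq_hv, h3]⟩
      · rw [blk_of_not h4] at h3
        exact Or.inl ⟨fun e => h2 (e ▸ hq), h1, h3⟩
    · rintro (⟨h1, h2⟩ | h1)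
      · refine ⟨h2.1, fun h3 => h1 (by rw [h3.eq_hv, h2.2]), by rw [h2.2, blk_of_not hP]⟩
      · refine ⟨h1.1, fun h3 => h3.par (h1.2 ▸ hq), ?_⟩
        rw [h1.2, blk_of_isQ hq, h.hv.2]
  rw [e, sum_union, sz_eq P, ← add_sum_erase _ _ (mem_chs.2 h.hv), sz_eq (T.hv P)]
  · omega
  · rw [disjoint_left]
    intro c h1 h2
    simp only [mem_erase, mem_chs] at h1 h2
    exact h.hv.ne (h2.2.symm.trans h1.2.2)

lemma R_eq_empty {P : V} (h : ∀ c, ¬ T.Ch P c) : T.R P = ∅ := by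
  ext c
  simp only [notMem_empty, iff_false]
  intro hc
  rcases (R_desc hc).exists_ch with h1 | ⟨c', h1, -⟩
  · have := R_dep_lt hc
    rw [h1] at this
    omega
  · exact h c' h1

lemma sz_leaf {P : V} (h : ∀ c, ¬ T.Ch P c) : T.sz P = 1 := by
  rw [sz_eq, show T.chs P = ∅ from by ext c; simp [h]]
  simp

lemma Desc.lv_le {c w : V} (hc : ¬ T.isQ c) (h : T.Desc c w) : T.lv w ≤ Nat.log 2 (T.sz c) := by
  have h1 : T.Desc c (T.blk w) := by
    by_cases hq : T.isQ w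
    · rw [blk_of_isQ hq]
      rcases h.cases with rfl | ⟨-, h2⟩
      · exact absurd hq hc
      · exact h2
    · rw [blk_of_not hq]; exact h
  exact Nat.log_mono_right ((min_le_right _ _).trans h1.sz_le)

lemma log_lt_lv {P c : V} (h : c ∈ T.R P) (h3 : T.gam c ≤ 3) :
    Nat.log 2 (T.sz c) < T.lv P := by
  obtain ⟨h1, h2, h4⟩ := mem_R.1 h
  have hP : T.blk P = P := h4 ▸ blk_blk _
  have h5 : 2 * T.sz c ≤ T.sz P := by
    have : c ≠ T.hv (T.par c) := fun e => by
      rw [← gam_eq_four] at e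
      omega
    exact (Ch.two_sz_le (T := T) ⟨h1, rfl⟩ this).trans (h4 ▸ (desc_blk _).sz_le)
  have h6 : T.sz c ≤ T.B P := by
    have := single_le_sum (f := T.sz) (s := (T.R P).filter (fun c => T.gam c ≤ 3))
      (fun _ _ => Nat.zero_le _) (mem_filter.2 ⟨h, h3⟩)
    unfold B
    omega
  unfold lv
  rw [hP]
  have h7 : Nat.log 2 (T.sz c * 2) = Nat.log 2 (T.sz c) + 1 :=
    Nat.log_mul_base (by norm_num) (sz_pos c).ne'
  have h8 : Nat.log 2 (T.sz c * 2) ≤ Nat.log 2 (min (2 * T.B P) (T.sz P)) :=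
    Nat.log_mono_right (by omega)
  omega

lemma lv_lt_of_light {P c w : V} (h : c ∈ T.R P) (h3 : T.gam c ≤ 3) (hw : T.Desc c w) :
    T.lv w < T.lv P :=
  (hw.lv_le (mem_R.1 h).2.1).trans_lt (log_lt_lv h h3)

lemma B_le_sz {P c : V} (hP : ¬ T.isQ P) (h : T.Ch P c) : T.B P ≤ T.sz P := by
  rw [sz_eq_R hP h]
  unfold B
  have := sum_le_sum_of_subset (f := T.sz) (filter_subset (fun c => T.gam c ≤ 3) (T.R P))
  omega

end RT

end Pool.Agent.P.MP_14bd88_co
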