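import Pool.Agent.P.MP_14bd88_co.Host

namespace Pool.Agent.P.MP_14bd88_co

open Finset

/-- the grid used at precision `k` -/
def grid (k : ℕ) : Grid where
  g j := 2 ^ max j (k + j / 2)
  F j := ∑ i ∈ range (j + 1), 6 * 2 ^ (max i (k + i / 2) - i)
  g_pos j := by positivity
  F_mono := fun _ _ h => sum_le_sum_of_subset (range_subset_range.2 (by omega))
  h0 := by
    have : 0 < 2 ^ k := by positivity
    simp
  hs j := by
    rw [sum_range_succ _ (j + 1), mul_add]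
    have : 2 ^ (j + 1) * (6 * 2 ^ (max (j + 1) (k + (j + 1) / 2) - (j + 1))) =
        6 * 2 ^ max (j + 1) (k + (j + 1) / 2) := by
      rw [mul_left_comm, ← pow_add, Nat.add_sub_cancel' (le_max_left _ _)]
    omega

lemma half_pow (i : ℕ) : (1 : ℝ) / 2 ^ (i / 2) ≤ 4 / 3 * (3 / 4) ^ i := by
  induction i using Nat.twoStepInduction with
  | zero => norm_num
  | one => norm_num
  | more i ih _ =>
    rw [Nat.add_div_right _ (by norm_num), pow_succ, pow_add, ← div_div]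
    have : (0 : ℝ) ≤ (3 / 4) ^ i := by positivity
    linarith

lemma sum_half_pow (m : ℕ) : ∑ i ∈ range m, (1 : ℝ) / 2 ^ (i / 2) ≤ 6 := by
  refine (sum_le_sum fun i _ => half_pow i).trans ?_
  rw [← mul_sum, geom_sum_eq (by norm_num), show (3 / 4 - 1 : ℝ) = -(1 / 4) by norm_num,
    div_neg, div_div_eq_mul_div, div_one]
  have : (0 : ℝ) ≤ (3 / 4) ^ m := by positivity
  linarith

lemma F_le {k L : ℕ} (h : L + 1 ≤ 2 ^ k) : ((grid k).F L : ℝ) ≤ 42 * 2 ^ k := by
  have h1 : ∀ i ∈ range (L + 1), ((6 * 2 ^ (max i (k + i / 2) - i) : ℕ) : ℝ) ≤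
      6 + 6 * 2 ^ k * (1 / 2 ^ (i / 2)) := by
    intro i _
    push_cast
    have h0 : (0 : ℝ) ≤ 2 ^ k * (1 / 2 ^ (i / 2)) := by positivity
    rcases le_total (k + i / 2) i with h2 | h2
    · rw [max_eq_left h2, Nat.sub_self]
      linarith
    · rw [max_eq_right h2]
      have : (2 : ℝ) ^ (k + i / 2 - i) ≤ 2 ^ k * (1 / 2 ^ (i / 2)) := by
        rw [mul_one_div, le_div_iff₀ (by positivity), ← pow_add]
        exact pow_le_pow_right₀ (by norm_num) (by omega)
      linarith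
  have h2 : ((grid k).F L : ℝ) =
      ∑ i ∈ range (L + 1), ((6 * 2 ^ (max i (k + i / 2) - i) : ℕ) : ℝ) := by
    simp [grid]
  rw [h2]
  refine (sum_le_sum h1).trans ?_
  rw [sum_add_distrib, ← mul_sum, sum_const, card_range, nsmul_eq_mul]
  have h3 := sum_half_pow (L + 1)
  have h4 : ((L + 1 : ℕ) : ℝ) ≤ 2 ^ k := by exact_mod_cast h
  have h5 : (0 : ℝ) < 2 ^ k := by positivity
  nlinarith

lemma le_F (k L : ℕ) : 2 ^ k ≤ (grid k).F L := by
  have h1 : (grid k).F 0 ≤ (grid k).F L := (grid k).F_mono (Nat.zero_le _)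
  have h2 : (grid k).F 0 = 6 * 2 ^ k := by simp [grid]
  omega

lemma g_le (k j : ℕ) : (grid k).g j ≤ 2 ^ j * 2 ^ k := by
  rw [← pow_add]
  exact Nat.pow_le_pow_right (by norm_num) (by omega)

lemma host_count {n k L : ℕ} (hL : 2 ^ L ≤ n) (hk : L + 1 ≤ 2 ^ k) :
    ((hG (n * (grid k).F L) L (grid k).g (fun j => 4 * 2 ^ j * (grid k).F L)).edgeSet.ncard : ℝ)
      ≤ 2000000 * n * (L + 1) * 2 ^ k := by
  refine (edge_count _ _ _ _ (grid k).g_pos).trans ?_
  set F := (grid k).F L with hF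
  have hF1 : (F : ℝ) ≤ 42 * 2 ^ k := F_le hk
  have hF2 : (2 : ℝ) ^ k ≤ F := by exact_mod_cast le_F k L
  have hk0 : (0 : ℝ) < 2 ^ k := by positivity
  have hterm : ∀ j : Fin (L + 1), 2 * (((n * F : ℕ) : ℝ) / (grid k).g j + 2) *
      (∑ i : Fin (L + 1), if i ≤ j then
        2 * ((2 * (4 * 2 ^ (j : ℕ) * F) : ℕ) / ((grid k).g i : ℝ) + 2) else 0) ≤
      2000000 * n * 2 ^ k := by
    intro j
    have hj0 : (0 : ℝ) < 2 ^ (j : ℕ) := by positivity
    have hjn : (2 : ℝ) ^ (j : ℕ) ≤ n := by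
      have : 2 ^ (j : ℕ) ≤ n :=
        (Nat.pow_le_pow_right (by norm_num) (Nat.lt_succ_iff.1 j.2)).trans hL
      exact_mod_cast this
    have h1 : ((n * F : ℕ) : ℝ) / (grid k).g j + 2 ≤ 3 * (n * F / 2 ^ (j : ℕ)) := by
      have a1 : ((n * F : ℕ) : ℝ) / (grid k).g j ≤ n * F / 2 ^ (j : ℕ) := by
        push_cast
        refine div_le_div_of_nonneg_left (by positivity) hj0 ?_
        have : 2 ^ (j : ℕ) ≤ (grid k).g j := Nat.pow_le_pow_right (by norm_num) (le_max_left _ _)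
        exact_mod_cast this
      have a2 : (1 : ℝ) ≤ n * F / 2 ^ (j : ℕ) := by
        rw [le_div_iff₀ hj0]
        have : (1 : ℝ) ≤ 2 ^ k := one_le_pow₀ (by norm_num)
        nlinarith
      linarith
    have h2 : ∀ i : Fin (L + 1), (if i ≤ j then
        2 * ((2 * (4 * 2 ^ (j : ℕ) * F) : ℕ) / ((grid k).g i : ℝ) + 2) else 0) ≤
        20 * (2 ^ (j : ℕ) * F / 2 ^ k) * (1 / 2 ^ ((i : ℕ) / 2)) := by
      intro i
      split_ifs with hij
      · have hi : (i : ℕ) ≤ j := hij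
        have a0 : (0 : ℝ) < 2 ^ ((i : ℕ) / 2) := by positivity
        have a1 : ((2 * (4 * 2 ^ (j : ℕ) * F) : ℕ) : ℝ) / (grid k).g i ≤
            8 * ((2 ^ (j : ℕ) * F / 2 ^ k) * (1 / 2 ^ ((i : ℕ) / 2))) := by
          have : 2 ^ k * 2 ^ ((i : ℕ) / 2) ≤ (grid k).g i := by
            rw [← pow_add]
            exact Nat.pow_le_pow_right (by norm_num) (le_max_right _ _)
          have b : (2 : ℝ) ^ k * 2 ^ ((i : ℕ) / 2) ≤ (grid k).g i := by exact_mod_cast this
          refine (div_le_div_of_nonneg_left (by positivity) (by positivity) b).trans (le_of_eq ?_)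
          push_cast
          field_simp
          ring
        have a2 : (1 : ℝ) ≤ (2 ^ (j : ℕ) * F / 2 ^ k) * (1 / 2 ^ ((i : ℕ) / 2)) := by
          rw [div_mul_div_comm, le_div_iff₀ (by positivity), one_mul, mul_one, mul_comm]
          exact mul_le_mul (pow_le_pow_right₀ (by norm_num) (by omega)) hF2 hk0.le hj0.le
        linarith
      · positivity
    have h3 : (∑ i : Fin (L + 1), if i ≤ j then
        2 * ((2 * (4 * 2 ^ (j : ℕ) * F) : ℕ) / ((grid k).g i : ℝ) + 2) else 0) ≤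
        120 * (2 ^ (j : ℕ) * F / 2 ^ k) := by
      refine (sum_le_sum fun i _ => h2 i).trans ?_
      rw [← mul_sum, Fin.sum_univ_eq_sum_range (fun i => (1 : ℝ) / 2 ^ (i / 2)) (L + 1)]
      have := sum_half_pow (L + 1)
      have a0 : (0 : ℝ) ≤ 2 ^ (j : ℕ) * F / 2 ^ k := by positivity
      nlinarith
    have h4 : 2 * (3 * (n * F / 2 ^ (j : ℕ))) * (120 * (2 ^ (j : ℕ) * F / 2 ^ k)) =
        720 * n * (F * (F / 2 ^ k) : ℝ) := by
      field_simp
      ring
    have h5 : (F : ℝ) / 2 ^ k ≤ 42 := by rwa [div_le_iff₀ hk0]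
    have h6 : (F : ℝ) * (F / 2 ^ k) ≤ 42 * 2 ^ k * 42 :=
      mul_le_mul hF1 h5 (by positivity) (by positivity)
    have hn : (0 : ℝ) ≤ n := by positivity
    refine (mul_le_mul (mul_le_mul_of_nonneg_left h1 (by norm_num)) h3
      (sum_nonneg fun i _ => by split_ifs <;> positivity) (by positivity)).trans ?_
    rw [h4]
    nlinarith [mul_le_mul_of_nonneg_left h6 hn, mul_nonneg hn hk0.le]
  refine (sum_le_card_nsmul _ _ _ fun j _ => hterm j).trans (le_of_eq ?_)
  simp only [card_univ, Fintype.card_fin, nsmul_eq_mul]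
  push_cast
  ring

theorem exists_resp {V : Type} [Fintype V] (T : RT V) (G : Grid) {n : ℕ}
    (hn : Fintype.card V = n) :
    ∃ φ : V → HV (n * G.F (Nat.log 2 n)) (Nat.log 2 n), Resp T G (hPts _ _) φ ∧
      ∀ u v, T.Adj u v → (hG _ _ G.g (fun j => 4 * 2 ^ j * G.F (Nat.log 2 n))).Adj
        (φ u) (φ v) := by
  subst hn
  let φ : V → HV (Fintype.card V * G.F (Nat.log 2 (Fintype.card V)))
      (Nat.log 2 (Fintype.card V)) := fun v =>
    (⟨T.x G v, RT.x_lt v⟩, ⟨T.lv v, Nat.lt_succ_of_le (RT.lv_le v)⟩, decide (T.sg v = 1))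
  have h : Resp T G (hPts _ _) φ := by
    refine ⟨fun u v h => lt_of_mul_add (hX_small (φ u)) h,
      fun u v h => lt_of_mul_add (hX_lt (φ u)) h, fun u => ?_⟩
    rcases RT.sg_cases (T := T) u with h | h <;> simp [hPts, φ, h]
  refine ⟨φ, h, ?_⟩
  have key : ∀ u v, T.Ch v u →
      (hG _ _ G.g (fun j => 4 * 2 ^ j * G.F (Nat.log 2 (Fintype.card V)))).Adj (φ u) (φ v) := by
    rintro u v ⟨h1, rfl⟩
    have := RT.range (G := G) h1 RT.lv_le
    exact ⟨h.inj.ne (RT.Ch.ne (T := T) ⟨h1, rfl⟩), RT.dvd_x _, RT.dvd_x _, this.1, this.2⟩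
  rintro u v (h1 | h1)
  · exact (key v u h1).symm
  · exact key u v h1

end Pool.Agent.P.MP_14bd88_co
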