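import Mathlib

namespace Pool.Agent.P.MP_14bd88_co

open Complex

/-- orientation determinant -/
def det3 (a b c : ℂ) : ℝ := (b - a).re * (c - a).im - (b - a).im * (c - a).re

lemma det3_cyc (a b c : ℂ) : det3 a b c = det3 b c a := by
  simp only [det3, sub_re, sub_im]; ring

lemma det3_swap (a b c : ℂ) : det3 a c b = - det3 a b c := by
  simp only [det3, sub_re, sub_im]; ring

lemma det3_seg {a b c d z : ℂ} (hz : z ∈ segment ℝ c d) :
    ∃ s t : ℝ, 0 ≤ s ∧ 0 ≤ t ∧ s + t = 1 ∧ z = s • c + t • d ∧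
      det3 a b z = s * det3 a b c + t * det3 a b d := by
  obtain ⟨s, t, hs, ht, hst, rfl⟩ := hz
  refine ⟨s, t, hs, ht, hst, rfl, ?_⟩
  obtain rfl : s = 1 - t := by linarith
  simp only [det3, sub_re, sub_im, add_re, add_im, smul_re, smul_im, smul_eq_mul]
  ring

lemma det3_eq_zero {a b z : ℂ} (hz : z ∈ segment ℝ a b) : det3 a b z = 0 := by
  obtain ⟨s, t, -, -, -, -, h⟩ := det3_seg (a := a) (b := b) hz
  rw [h]
  simp [det3, mul_comm]

lemma seg_disj {a b c d z : ℂ} (h : (0 < det3 a b c ∧ 0 < det3 a b d) ∨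
    (det3 a b c < 0 ∧ det3 a b d < 0)) (h1 : z ∈ segment ℝ a b) (h2 : z ∈ segment ℝ c d) :
    False := by
  obtain ⟨s, t, hs, ht, hst, -, h3⟩ := det3_seg (a := a) (b := b) h2
  rw [det3_eq_zero h1] at h3
  obtain rfl : s = 1 - t := by linarith
  rcases h with ⟨h4, h5⟩ | ⟨h4, h5⟩
  · rcases hs.eq_or_lt with h6 | h6
    · obtain rfl : t = 1 := by linarith
      linarith
    · nlinarith [mul_pos h6 h4, mul_nonneg ht h5.le]
  · rcases hs.eq_or_lt with h6 | h6
    · obtain rfl : t = 1 := by linarith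
      linarith
    · nlinarith [mul_pos h6 (neg_pos.2 h4), mul_nonneg ht (neg_pos.2 h5).le]

lemma seg_share {a b d z : ℂ} (h : det3 a b d ≠ 0) (h1 : z ∈ segment ℝ a b)
    (h2 : z ∈ segment ℝ a d) : z = a := by
  obtain ⟨s, t, hs, ht, hst, hz, h3⟩ := det3_seg (a := a) (b := b) h2
  rw [det3_eq_zero h1] at h3
  have h4 : det3 a b a = 0 := by simp [det3]
  rw [h4, mul_zero, zero_add] at h3
  obtain rfl : t = 0 := by
    rcases mul_eq_zero.1 h3.symm with h5 | h5
    · exact h5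
    · exact absurd h5 h
  obtain rfl : s = 1 := by linarith
  simpa using hz

/-- two of the three consecutive determinants are positive -/
def CCW (w y z u : ℂ) : Prop :=
  (0 < det3 w y z ∧ 0 < det3 w z u) ∨ (0 < det3 w z u ∧ 0 < det3 w u y) ∨
    (0 < det3 w u y ∧ 0 < det3 w y z)

lemma CCW.cyc {w y z u : ℂ} (h : CCW w y z u) : CCW w z u y := by
  unfold CCW at h ⊢; tauto

lemma det3_polar {w y z : ℂ} {r s α β : ℝ} (hy : y - w = r * exp (α * I))
    (hz : z - w = s * exp (β * I)) : det3 w y z = r * s * Real.sin (β - α) := by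
  unfold det3
  rw [hy, hz, Real.sin_sub]
  simp only [re_ofReal_mul, im_ofReal_mul, exp_ofReal_mul_I_re, exp_ofReal_mul_I_im]
  ring

lemma lt_pi_of_sin_pos {t : ℝ} (h1 : t < 2 * Real.pi) (h : 0 < Real.sin t) : t < Real.pi := by
  by_contra h2
  have := Real.sin_nonneg_of_nonneg_of_le_pi (x := t - Real.pi) (by linarith) (by linarith)
  rw [Real.sin_sub_pi] at this
  linarith

lemma pi_lt_of_sin_neg {t : ℝ} (h0 : 0 ≤ t) (h : 0 < Real.sin (-t)) : Real.pi < t := by
  by_contra h2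
  have := Real.sin_nonneg_of_nonneg_of_le_pi h0 (by linarith)
  rw [Real.sin_neg] at h
  linarith

lemma exists_angles {d : ℕ} (w : ℂ) (z : Fin d → ℂ) (h0 : ∀ i, z i ≠ w)
    (h1 : ∀ i j, i ≠ j → det3 w (z i) (z j) ≠ 0)
    (h2 : ∀ i j k, i < j → j < k → CCW w (z i) (z j) (z k)) :
    ∃ θ : Fin d → ℝ, StrictMono θ ∧ (∀ i j, θ j < θ i + 2 * Real.pi) ∧
      ∀ i, ∃ r : ℝ, 0 < r ∧ z i - w = r * exp (θ i * I) := by
  rcases d with _ | d
  · exact ⟨fun _ => 0, fun i => i.elim0, fun i => i.elim0, fun i => i.elim0⟩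
  set α := arg (z 0 - w)
  let θ : Fin (d + 1) → ℝ := fun i => toIcoMod Real.two_pi_pos α (arg (z i - w))
  have hθ : ∀ i, α ≤ θ i ∧ θ i < α + 2 * Real.pi := fun i => toIcoMod_mem_Ico _ _ _
  have hθ0 : θ 0 = α := by
    refine (toIcoMod_eq_self _).2 ⟨le_rfl, ?_⟩
    linarith [Real.two_pi_pos]
  have hpol : ∀ i, z i - w = (‖z i - w‖ : ℝ) * exp (θ i * I) := by
    intro i
    have h3 : θ i = arg (z i - w) -
        (toIcoDiv Real.two_pi_pos α (arg (z i - w)) : ℤ) * (2 * Real.pi) := by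
      simp only [θ, toIcoMod, zsmul_eq_mul]
    rw [h3]
    push_cast
    rw [sub_mul, exp_sub, mul_assoc, exp_int_mul_two_pi_mul_I, div_one, norm_mul_exp_arg_mul_I]
  have hpos : ∀ i, 0 < ‖z i - w‖ := fun i => norm_pos_iff.2 (sub_ne_zero.2 (h0 i))
  have hsin : ∀ i j, 0 < det3 w (z i) (z j) → 0 < Real.sin (θ j - θ i) := by
    intro i j h
    rw [det3_polar (hpol i) (hpol j)] at h
    exact (mul_pos_iff_of_pos_left (mul_pos (hpos i) (hpos j))).1 h
  refine ⟨θ, fun i j hij => ?_, fun i j => by linarith [hθ i, hθ j],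
    fun i => ⟨_, hpos i, hpol i⟩⟩
  by_cases hi : i = 0
  · subst hi
    rw [hθ0]
    refine lt_of_le_of_ne (hθ j).1 fun e => h1 0 j hij.ne ?_
    rw [det3_polar (hpol 0) (hpol j), hθ0, ← e]
    simp
  by_contra hlt
  push Not at hlt
  have hi' := hθ i
  have hj' := hθ j
  rcases h2 0 i j (Fin.pos_iff_ne_zero.2 hi) hij with ⟨h3, h4⟩ | ⟨h3, h4⟩ | ⟨h3, h4⟩
  · have h5 := lt_pi_of_sin_pos (by rw [hθ0]; linarith) (hsin _ _ h3)
    rw [hθ0] at h5
    have := Real.sin_nonpos_of_nonpos_of_neg_pi_le (x := θ j - θ i) (by linarith) (by linarith)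
    linarith [hsin _ _ h4]
  · have h5 := pi_lt_of_sin_neg (t := θ j - α) (by linarith) (by
      have := hsin _ _ h4
      rwa [hθ0, ← neg_sub] at this)
    have := Real.sin_nonpos_of_nonpos_of_neg_pi_le (x := θ j - θ i) (by linarith) (by linarith)
    linarith [hsin _ _ h3]
  · have h5 := pi_lt_of_sin_neg (t := θ j - α) (by linarith) (by
      have := hsin _ _ h3
      rwa [hθ0, ← neg_sub] at this)
    have h6 := lt_pi_of_sin_pos (by rw [hθ0]; linarith) (hsin _ _ h4)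
    rw [hθ0] at h6
    linarith

/-- point sets with super-increasing heights -/
structure Pts (W : Type) where
  M : ℕ
  X : W → ℕ
  e : W → ℕ
  s : W → ℤ
  X_inj : Function.Injective X
  X_lt : ∀ w, X w < M
  e_inj : Function.Injective e
  s_cases : ∀ w, s w = 1 ∨ s w = -1

namespace Pts

variable {W : Type} (S : Pts W)

/-- the point -/
def pt (w : W) : ℂ := ⟨S.X w, S.s w * (2 * S.M : ℝ) ^ S.e w⟩

lemma P_inj : Function.Injective S.pt := by
  intro u v h
  have : (S.X u : ℝ) = S.X v := congrArg re h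
  exact S.X_inj (by exact_mod_cast this)

variable {S}

lemma top {p q r : W} (hq : S.e q < S.e p) (hr : S.e r < S.e p) (h : S.X q < S.X r) :
    0 < S.s p * det3 (S.pt p) (S.pt q) (S.pt r) := by
  obtain ⟨k, hk⟩ : ∃ k, S.e p = k + 1 := ⟨S.e p - 1, by omega⟩
  have hM : (1 : ℝ) ≤ S.M := by
    have := S.X_lt p
    exact_mod_cast (by omega : 1 ≤ S.M)
  have h1 : (1 : ℝ) ≤ 2 * S.M := by linarith
  have hq' : (2 * S.M : ℝ) ^ S.e q ≤ (2 * S.M : ℝ) ^ k := pow_le_pow_right₀ h1 (by omega)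
  have hr' : (2 * S.M : ℝ) ^ S.e r ≤ (2 * S.M : ℝ) ^ k := pow_le_pow_right₀ h1 (by omega)
  have hq0 : (0 : ℝ) < (2 * S.M : ℝ) ^ S.e q := by positivity
  have hr0 : (0 : ℝ) < (2 * S.M : ℝ) ^ S.e r := by positivity
  have hX : (S.X q : ℝ) + 1 ≤ S.X r := by exact_mod_cast h
  have b1 : (S.X p : ℝ) < S.M := by exact_mod_cast S.X_lt p
  have b2 : (S.X q : ℝ) < S.M := by exact_mod_cast S.X_lt q
  have b3 : (S.X r : ℝ) < S.M := by exact_mod_cast S.X_lt r
  have c1 : (0 : ℝ) ≤ S.X p := by positivity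
  have c2 : (0 : ℝ) ≤ S.X q := by positivity
  have e1 : det3 (S.pt p) (S.pt q) (S.pt r) =
      S.s p * (2 * S.M : ℝ) ^ S.e p * (S.X r - S.X q) +
        S.s r * (2 * S.M : ℝ) ^ S.e r * (S.X q - S.X p) -
        S.s q * (2 * S.M : ℝ) ^ S.e q * (S.X r - S.X p) := by
    simp only [det3, pt, sub_re, sub_im]; ring
  rw [e1, hk, pow_succ]
  set A := (2 * S.M : ℝ) ^ k
  set B := (2 * S.M : ℝ) ^ S.e q
  set C := (2 * S.M : ℝ) ^ S.e r
  have hA : 0 < A := hq0.trans_le hq'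
  have d1 : C * (S.X q - S.X p) < A * S.M := by nlinarith
  have d2 : - (C * (S.X q - S.X p)) < A * S.M := by nlinarith
  have d3 : B * (S.X r - S.X p) < A * S.M := by nlinarith
  have d4 : - (B * (S.X r - S.X p)) < A * S.M := by nlinarith
  have d5 : A * (2 * S.M) ≤ A * (2 * S.M) * (S.X r - S.X q) :=
    le_mul_of_one_le_right (by positivity) (by linarith)
  rcases S.s_cases p with h1 | h1 <;> rcases S.s_cases q with h2 | h2 <;>
    rcases S.s_cases r with h3 | h3 <;> rw [h1, h2, h3] <;> push_cast <;> linarith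

lemma top' {p q r : W} (hq : S.e q < S.e p) (hr : S.e r < S.e p) (h : S.X r < S.X q) :
    S.s p * det3 (S.pt p) (S.pt q) (S.pt r) < 0 := by
  have := top hr hq h
  rw [det3_swap] at this
  linarith

lemma top_ne {p q r : W} (hq : S.e q < S.e p) (hr : S.e r < S.e p) (h : q ≠ r) :
    det3 (S.pt p) (S.pt q) (S.pt r) ≠ 0 := by
  intro h0
  rcases lt_or_gt_of_ne (S.X_inj.ne h) with h1 | h1
  · have := top hq hr h1
    rw [h0] at this
    simp at this
  · have := top' hq hr h1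
    rw [h0] at this
    simp at this

lemma det_ne {p q r : W} (h1 : p ≠ q) (h2 : q ≠ r) (h3 : r ≠ p) :
    det3 (S.pt p) (S.pt q) (S.pt r) ≠ 0 := by
  have e1 := S.e_inj.ne h1
  have e2 := S.e_inj.ne h2
  have e3 := S.e_inj.ne h3
  by_cases c1 : S.e q < S.e p ∧ S.e r < S.e p
  · exact top_ne c1.1 c1.2 h2
  by_cases c2 : S.e r < S.e q ∧ S.e p < S.e q
  · rw [det3_cyc]; exact top_ne c2.1 c2.2 h3
  · rw [← det3_cyc]; exact top_ne (by omega) (by omega) h1

lemma same_sign {s : ℤ} (hs : s = 1 ∨ s = -1) {A B : ℝ}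
    (h : (0 < s * A ∧ 0 < s * B) ∨ (s * A < 0 ∧ s * B < 0)) :
    (0 < A ∧ 0 < B) ∨ (A < 0 ∧ B < 0) := by
  rcases hs with rfl | rfl <;> push_cast at h <;> rcases h with ⟨h1, h2⟩ | ⟨h1, h2⟩
  · left; constructor <;> linarith
  · right; constructor <;> linarith
  · right; constructor <;> linarith
  · left; constructor <;> linarith

/-- geometric non-crossing criterion -/
lemma disj {a b c d : W} (hab : S.e b < S.e a) (hac : S.e c < S.e a) (hcd : S.e d < S.e c)
    (hbc : b ≠ c) (hbd : b ≠ d)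
    (h : (S.X c < S.X b ∧ S.X b < S.X d) ∨ (S.X d < S.X b ∧ S.X b < S.X c) →
      S.s a = S.s b ∧ S.s c ≠ S.s a) {z : ℂ}
    (h1 : z ∈ segment ℝ (S.pt a) (S.pt b)) (h2 : z ∈ segment ℝ (S.pt c) (S.pt d)) : False := by
  have had : S.e d < S.e a := hcd.trans hac
  have x1 := S.X_inj.ne hbc
  have x2 := S.X_inj.ne hbd
  by_cases c1 : S.X b < S.X c ∧ S.X b < S.X d
  · exact seg_disj (same_sign (S.s_cases a) (Or.inl ⟨top hab hac c1.1, top hab had c1.2⟩)) h1 h2
  by_cases c2 : S.X c < S.X b ∧ S.X d < S.X b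
  · exact seg_disj (same_sign (S.s_cases a)
      (Or.inr ⟨top' hab hac c2.1, top' hab had c2.2⟩)) h1 h2
  have hb : (S.X c < S.X b ∧ S.X b < S.X d) ∨ (S.X d < S.X b ∧ S.X b < S.X c) := by omega
  obtain ⟨h3, h4⟩ := h hb
  have h5 : (S.s c : ℝ) = - S.s a := by
    have := S.s_cases a
    have := S.s_cases c
    exact_mod_cast (by omega : S.s c = - S.s a)
  refine seg_disj (same_sign (S.s_cases a) ?_) h2 h1
  rw [← det3_cyc (S.pt a)]
  rcases lt_or_gt_of_ne (S.e_inj.ne hbc) with h6 | h6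
  · rcases hb with hb | hb
    · have := top' hcd h6 hb.2
      rw [h5] at this
      exact Or.inl ⟨top hac had (by omega), by linarith⟩
    · have := top hcd h6 hb.1
      rw [h5] at this
      exact Or.inr ⟨top' hac had (by omega), by linarith⟩
  · rw [← det3_cyc (S.pt b)]
    rcases hb with hb | hb
    · exact Or.inl ⟨top hac had (by omega), h3 ▸ top h6 (hcd.trans h6) (by omega)⟩
    · exact Or.inr ⟨top' hac had (by omega), h3 ▸ top' h6 (hcd.trans h6) (by omega)⟩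

end Pts

end Pool.Agent.P.MP_14bd88_co
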