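import Pool.Agent.P.MP_14bd88_co.Props
import Pool.Agent.P.MP_14bd88_co.Geom

namespace Pool.Agent.P.MP_14bd88_co

open Complex

variable {V W : Type} [Fintype V] {T : RT V} {G : Grid} {S : Pts W}

/-- a map of the tree into the point set that respects positions, levels and sides -/
structure Resp (T : RT V) (G : Grid) (S : Pts W) (φ : V → W) : Prop where
  x : ∀ u v, T.x G u < T.x G v → S.X (φ u) < S.X (φ v)
  lv : ∀ u v, T.lv u < T.lv v → S.e (φ u) < S.e (φ v)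
  sg : ∀ u, S.s (φ u) = T.sg u

namespace Resp

variable {φ : V → W} (h : Resp T G S φ)
include h

lemma inj : Function.Injective φ := by
  intro u v e
  rcases lt_trichotomy (T.x G u) (T.x G v) with h1 | h1 | h1
  · have := h.x _ _ h1; rw [e] at this; omega
  · exact RT.x_inj h1
  · have := h.x _ _ h1; rw [e] at this; omega

lemma x_lt {u v : V} (h1 : S.X (φ u) < S.X (φ v)) : T.x G u < T.x G v := by
  rcases lt_trichotomy (T.x G u) (T.x G v) with h2 | h2 | h2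
  · exact h2
  · rw [RT.x_inj h2] at h1; omega
  · have := h.x _ _ h2; omega

lemma lv_le {u v : V} (h1 : S.e (φ u) < S.e (φ v)) : T.lv u ≤ T.lv v := by
  by_contra h2
  have := h.lv v u (by omega)
  omega

lemma e_ne {u v : V} (h1 : u ≠ v) : S.e (φ u) ≠ S.e (φ v) :=
  S.e_inj.ne (h.inj.ne h1)

lemma disj_aux {a b c d : V} (hab : T.Adj a b) (hcd : T.Adj c d) (hac : a ≠ c) (had : a ≠ d)
    (hbc : b ≠ c) (hbd : b ≠ d) (e1 : S.e (φ b) < S.e (φ a)) (e2 : S.e (φ c) < S.e (φ a))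
    (e3 : S.e (φ d) < S.e (φ c)) {z : ℂ} (h1 : z ∈ segment ℝ (S.pt (φ a)) (S.pt (φ b)))
    (h2 : z ∈ segment ℝ (S.pt (φ c)) (S.pt (φ d))) : False := by
  refine Pts.disj e1 e2 e3 (h.inj.ne hbc) (h.inj.ne hbd) (fun hb => ?_) h1 h2
  rw [h.sg, h.sg, h.sg]
  refine RT.no_cross (G := G) hab hcd hac had hbc hbd (h.lv_le e1) (h.lv_le e2) (h.lv_le e3) ?_
  rcases hb with hb | hb
  · exact Or.inl ⟨h.x_lt hb.1, h.x_lt hb.2⟩
  · exact Or.inr ⟨h.x_lt hb.1, h.x_lt hb.2⟩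

omit h [Fintype V] in
lemma _root_.Pool.Agent.P.MP_14bd88_co.RT.Adj.ne {a b : V} (hab : T.Adj a b) : a ≠ b := by
  rcases hab with h1 | h1
  · exact h1.ne.symm
  · exact h1.ne

lemma disj_aux2 {a b c d : V} (hab : T.Adj a b) (hcd : T.Adj c d) (hac : a ≠ c) (had : a ≠ d)
    (hbc : b ≠ c) (hbd : b ≠ d) (e1 : S.e (φ b) < S.e (φ a))
    (e3 : S.e (φ d) < S.e (φ c)) {z : ℂ} (h1 : z ∈ segment ℝ (S.pt (φ a)) (S.pt (φ b)))
    (h2 : z ∈ segment ℝ (S.pt (φ c)) (S.pt (φ d))) : False := by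
  rcases lt_or_gt_of_ne (h.e_ne hac) with e2 | e2
  · exact h.disj_aux hcd hab hac.symm hbc.symm had.symm hbd.symm e3 e2 e1 h2 h1
  · exact h.disj_aux hab hcd hac had hbc hbd e1 e2 e3 h1 h2

/-- disjoint edges have disjoint segments -/
theorem disj {a b c d : V} (hab : T.Adj a b) (hcd : T.Adj c d) (hac : a ≠ c) (had : a ≠ d)
    (hbc : b ≠ c) (hbd : b ≠ d) {z : ℂ} (h1 : z ∈ segment ℝ (S.pt (φ a)) (S.pt (φ b)))
    (h2 : z ∈ segment ℝ (S.pt (φ c)) (S.pt (φ d))) : False := by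
  have h1' := h1
  have h2' := h2
  rw [segment_symm] at h1' h2'
  rcases lt_or_gt_of_ne (h.e_ne hab.ne) with e1 | e1 <;>
    rcases lt_or_gt_of_ne (h.e_ne hcd.ne) with e2 | e2
  · exact h.disj_aux2 hab.symm hcd.symm hbd hbc had hac e1 e2 h1' h2'
  · exact h.disj_aux2 hab.symm hcd hbc hbd hac had e1 e2 h1' h2
  · exact h.disj_aux2 hab hcd.symm had hac hbd hbc e1 e2 h1 h2'
  · exact h.disj_aux2 hab hcd hac had hbc hbd e1 e2 h1 h2

lemma s_neg {w y : V} (h1 : T.sg y ≠ T.sg w) : (S.s (φ y) : ℝ) = - S.s (φ w) := by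
  have := RT.sg_cases (T := T) y
  have := RT.sg_cases (T := T) w
  rw [h.sg, h.sg]
  exact_mod_cast (by omega : T.sg y = - T.sg w)

lemma pairA {w y z : V} (hy : y ≠ w) (hz : z ≠ w) (h0 : 0 ≤ T.vk G (S.e ∘ φ) w y)
    (h1 : T.vk G (S.e ∘ φ) w y < T.vk G (S.e ∘ φ) w z) :
    0 < S.s (φ w) * det3 (S.pt (φ w)) (S.pt (φ y)) (S.pt (φ z)) := by
  have e1 := h.e_ne hy
  have e2 := h.e_ne hz
  unfold RT.vk at h0 h1
  simp only [Function.comp] at h0 h1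
  split_ifs at h0 h1 with c1 c2 c3 c4 c5 c6
  · exact Pts.top c1 c2 (h.x _ _ (by omega))
  · omega
  · have := Pts.top' (p := φ z) (q := φ w) (r := φ y) (by omega) (by omega) (h.x _ _ (by omega))
    rw [h.s_neg c3, det3_cyc] at this
    linarith
  · omega
  · omega
  · omega
  · have := Pts.top' (p := φ y) (q := φ z) (r := φ w) (by omega) (by omega) (h.x _ _ (by omega))
    rw [h.s_neg c4, ← det3_cyc] at this
    linarith
  · omega
  · omega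

lemma pairB {w y z : V} (hy : y ≠ w) (h0 : T.vk G (S.e ∘ φ) w y < 0)
    (h1 : 0 ≤ T.vk G (S.e ∘ φ) w z) (h2 : T.vk G (S.e ∘ φ) w z < T.x G w) :
    0 < S.s (φ w) * det3 (S.pt (φ w)) (S.pt (φ y)) (S.pt (φ z)) := by
  have e1 := h.e_ne hy
  unfold RT.vk at h0 h1 h2
  simp only [Function.comp] at h0 h1 h2
  split_ifs at h0 h1 h2 with c1 c2 c3 c4 c5 c6 <;> try omega
  have := Pts.top (p := φ y) (q := φ z) (r := φ w) (by omega) (by omega) (h.x _ _ (by omega))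
  rwa [h.sg, c4, ← h.sg, ← det3_cyc] at this

lemma pairC {w y z : V} (hy : y ≠ w) (h0 : T.vk G (S.e ∘ φ) w y < 0)
    (h2 : (T.x G w : ℤ) < T.vk G (S.e ∘ φ) w z) :
    0 < S.s (φ w) * det3 (S.pt (φ w)) (S.pt (φ z)) (S.pt (φ y)) := by
  have e1 := h.e_ne hy
  unfold RT.vk at h0 h2
  simp only [Function.comp] at h0 h2
  split_ifs at h0 h2 with c1 c2 c3 c4 c5 c6 <;> try omega
  have := Pts.top (p := φ y) (q := φ w) (r := φ z) (by omega) (by omega) (h.x _ _ (by omega))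
  rwa [h.sg, c4, ← h.sg, det3_cyc] at this

omit h in
lemma vk_ge (e : V → ℕ) (w y : V) : -1 ≤ T.vk G e w y := by
  unfold RT.vk; split_ifs <;> omega

lemma ccw_sorted {w y z u : V} (hy : y ≠ w) (hz : z ≠ w) (hu : u ≠ w)
    (h1 : T.vk G (S.e ∘ φ) w y < T.vk G (S.e ∘ φ) w z)
    (h2 : T.vk G (S.e ∘ φ) w z < T.vk G (S.e ∘ φ) w u) :
    (T.sg w = 1 → CCW (S.pt (φ w)) (S.pt (φ y)) (S.pt (φ z)) (S.pt (φ u))) ∧
    (T.sg w = -1 → CCW (S.pt (φ w)) (S.pt (φ u)) (S.pt (φ z)) (S.pt (φ y))) := by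
  have h3 := vk_ge (T := T) (G := G) (S.e ∘ φ) w y
  have h4 := h.pairA hz hu (by omega) h2
  have h5 : 0 < S.s (φ w) * det3 (S.pt (φ w)) (S.pt (φ y)) (S.pt (φ z)) ∨
      0 < S.s (φ w) * det3 (S.pt (φ w)) (S.pt (φ u)) (S.pt (φ y)) := by
    by_cases c1 : 0 ≤ T.vk G (S.e ∘ φ) w y
    · exact Or.inl (h.pairA hy hz c1 h1)
    by_cases c2 : T.vk G (S.e ∘ φ) w z < T.x G w
    · exact Or.inl (h.pairB hy (by omega) (by omega) c2)
    · exact Or.inr (h.pairC hy (by omega) (by omega))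
  rw [h.sg] at h4 h5
  constructor
  · intro hs
    rw [hs] at h4 h5
    push_cast at h4 h5
    rw [one_mul] at h4
    rw [one_mul, one_mul] at h5
    unfold CCW
    tauto
  · intro hs
    rw [hs] at h4 h5
    push_cast at h4 h5
    rw [neg_one_mul, ← det3_swap] at h4
    rw [neg_one_mul, neg_one_mul, ← det3_swap, ← det3_swap] at h5
    unfold CCW
    tauto

lemma ccw_cyc {w y z u : V} (hy : y ≠ w) (hz : z ≠ w) (hu : u ≠ w)
    (h1 : Cyc (T.vk G (S.e ∘ φ) w y) (T.vk G (S.e ∘ φ) w z) (T.vk G (S.e ∘ φ) w u)) :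
    (T.sg w = 1 → CCW (S.pt (φ w)) (S.pt (φ y)) (S.pt (φ z)) (S.pt (φ u))) ∧
    (T.sg w = -1 → CCW (S.pt (φ w)) (S.pt (φ u)) (S.pt (φ z)) (S.pt (φ y))) := by
  rcases h1 with ⟨h1, h2⟩ | ⟨h1, h2⟩ | ⟨h1, h2⟩
  · exact h.ccw_sorted hy hz hu h1 h2
  · have := h.ccw_sorted hz hu hy h1 h2
    exact ⟨fun hs => (this.1 hs).cyc.cyc, fun hs => (this.2 hs).cyc⟩
  · have := h.ccw_sorted hu hy hz h1 h2
    exact ⟨fun hs => (this.1 hs).cyc, fun hs => (this.2 hs).cyc.cyc⟩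

theorem ccw_children {w y z u : V} (hy : T.Ch w y) (hz : T.Ch w z) (hu : T.Ch w u)
    (h1 : T.ord y < T.ord z) (h2 : T.ord z < T.ord u) :
    CCW (S.pt (φ w)) (S.pt (φ y)) (S.pt (φ z)) (S.pt (φ u)) := by
  rcases RT.sg_cases (T := T) w with hs | hs
  · refine (h.ccw_cyc hy.ne hz.ne hu.ne (RT.rot_children h.lv hy hz hu ?_ ?_)).1 hs <;>
      simp only [RT.key, hy.2, hz.2, hu.2, hs] <;> omega
  · refine (h.ccw_cyc hu.ne hz.ne hy.ne (RT.rot_children h.lv hu hz hy ?_ ?_)).2 hs <;>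
      simp only [RT.key, hy.2, hz.2, hu.2, hs] <;> omega

theorem ccw_parent {w z u : V} (hr : w ≠ T.r) (hz : T.Ch w z) (hu : T.Ch w u)
    (h2 : T.ord z < T.ord u) :
    CCW (S.pt (φ w)) (S.pt (φ (T.par w))) (S.pt (φ z)) (S.pt (φ u)) := by
  have hp : T.par w ≠ w := (RT.Ch.ne (T := T) ⟨hr, rfl⟩).symm
  rcases RT.sg_cases (T := T) w with hs | hs
  · refine (h.ccw_cyc hp hz.ne hu.ne (RT.rot_parent h.lv hr hz hu ?_)).1 hs
    simp only [RT.key, hz.2, hu.2, hs]; omega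
  · refine ((h.ccw_cyc hp hu.ne hz.ne (RT.rot_parent h.lv hr hu hz ?_)).2 hs).cyc.cyc
    simp only [RT.key, hz.2, hu.2, hs]; omega

end Resp

end Pool.Agent.P.MP_14bd88_co
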