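import Pool.Agent.P.MP_14bd88_co.Embed

namespace Pool.Agent.P.MP_14bd88_co

open SimpleGraph

variable {V : Type}

lemma exists_par {H : SimpleGraph V} (hH : H.IsTree) (r v : V) :
    ∃ u, v ≠ r → H.Adj u v ∧ H.dist r v = H.dist r u + 1 := by
  by_cases hv : v = r
  · exact ⟨v, fun h => absurd hv h⟩
  obtain ⟨p, -, hp⟩ := hH.connected.exists_path_of_dist v r
  cases p with
  | nil => exact absurd rfl hv
  | cons h q =>
    rename_i u
    refine ⟨u, fun _ => ⟨h.symm, ?_⟩⟩
    have h1 := dist_le q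
    rw [Walk.length_cons] at hp
    have h2 := hH.dist_eq_dist_add_one_of_adj r h
    rw [dist_comm] at hp h1
    omega

lemma par_unique {H : SimpleGraph V} (hH : H.IsTree) {r v u u' : V} (h : H.Adj u v)
    (h' : H.Adj u' v) (hd : H.dist r v = H.dist r u + 1) (hd' : H.dist r v = H.dist r u' + 1) :
    u = u' := by
  obtain ⟨p, -, hp⟩ := hH.connected.exists_path_of_dist r u
  obtain ⟨p', -, hp'⟩ := hH.connected.exists_path_of_dist r u'
  have h1 : (p.concat h).IsPath := Walk.isPath_of_length_eq_dist _ (by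
    rw [Walk.length_concat]; omega)
  have h2 : (p'.concat h').IsPath := Walk.isPath_of_length_eq_dist _ (by
    rw [Walk.length_concat]; omega)
  have h3 : p.concat h = p'.concat h' := (hH.existsUnique_path r v).unique h1 h2
  have h4 := congrArg Walk.penultimate h3
  simpa using h4

/-- every plane tree is a rooted ordered tree -/
theorem exists_RT [DecidableEq V] {H : SimpleGraph V} (hH : H.IsTree) (rot : V → List V)
    (hrot : ∀ v w, w ∈ rot v ↔ H.Adj v w) :
    ∃ T : RT V, (∀ u v, H.Adj u v ↔ T.Adj u v) ∧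
      ∀ w c, T.Ch w c → T.ord c = if w ≠ T.r ∧ (rot w).idxOf c < (rot w).idxOf (T.par w)
        then ((rot w).idxOf c + (rot w).length : ℤ) else (rot w).idxOf c := by
  obtain ⟨r⟩ := hH.connected.nonempty
  choose par hpar using exists_par hH r
  let ord : V → ℤ := fun c =>
    if par c ≠ r ∧ (rot (par c)).idxOf c < (rot (par c)).idxOf (par (par c))
      then ((rot (par c)).idxOf c + (rot (par c)).length : ℤ) else (rot (par c)).idxOf c
  refine ⟨⟨r, par, H.dist r, ord, dist_self, fun v hv => (hpar v hv).2, ?_⟩, ?_, ?_⟩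
  · intro u v hu hv hp ho
    have h1 : u ∈ rot (par u) := (hrot _ _).2 (hpar u hu).1
    have h2 : v ∈ rot (par v) := (hrot _ _).2 (hpar v hv).1
    have h3 := List.idxOf_lt_length_of_mem h1
    have h4 := List.idxOf_lt_length_of_mem h2
    simp only [ord] at ho
    rw [hp] at ho h1 h3
    refine (List.idxOf_inj h1).1 ?_
    split_ifs at ho <;> omega
  · intro u v
    constructor
    · intro h
      rcases hH.dist_eq_dist_add_one_of_adj r h with h1 | h1
      · have hu : u ≠ r := by
          rintro rfl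
          rw [dist_self] at h1
          omega
        exact Or.inr ⟨hu, par_unique hH (hpar u hu).1 h.symm (hpar u hu).2 h1⟩
      · have hv : v ≠ r := by
          rintro rfl
          rw [dist_self] at h1
          omega
        exact Or.inl ⟨hv, par_unique hH (hpar v hv).1 h (hpar v hv).2 h1⟩
    · rintro (⟨h1, rfl⟩ | ⟨h1, rfl⟩)
      · exact (hpar v h1).1
      · exact (hpar u h1).1.symm
  · rintro w c ⟨-, rfl⟩
    rfl

variable {W : Type} [Fintype V] [DecidableEq V] {T : RT V} {G : Grid} {S : Pts W} {φ : V → W}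

theorem Resp.ccw_rot (h : Resp T G S φ) {w : V} {l : List V} (hl : l.Nodup)
    (hmem : ∀ c, c ∈ l ↔ T.Adj w c)
    (hord : ∀ c, T.Ch w c → T.ord c = if w ≠ T.r ∧ l.idxOf c < l.idxOf (T.par w)
        then (l.idxOf c + l.length : ℤ) else l.idxOf c) (i j k : Fin l.length) (hij : i < j)
    (hjk : j < k) :
    CCW (S.pt (φ w)) (S.pt (φ (l.get i))) (S.pt (φ (l.get j))) (S.pt (φ (l.get k))) := by
  have hidx : ∀ i : Fin l.length, l.idxOf (l.get i) = i := fun i => hl.idxOf_getElem _ _
  have hcase : ∀ i : Fin l.length, (T.Ch w (l.get i) ∧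
      ((w ≠ T.r ∧ (i : ℕ) < l.idxOf (T.par w) ∧ T.ord (l.get i) = i + l.length) ∨
        ((w = T.r ∨ l.idxOf (T.par w) < i) ∧ T.ord (l.get i) = i))) ∨
      (w ≠ T.r ∧ T.par w = l.get i ∧ l.idxOf (T.par w) = i) := by
    intro i
    rcases (hmem _).1 (List.get_mem l i) with h1 | h1
    · left
      refine ⟨h1, ?_⟩
      have h2 := hord _ h1
      rw [hidx] at h2
      by_cases h3 : w ≠ T.r ∧ (i : ℕ) < l.idxOf (T.par w)
      · rw [if_pos h3] at h2
        exact Or.inl ⟨h3.1, h3.2, h2⟩
      · rw [if_neg h3] at h2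
        refine Or.inr ⟨?_, h2⟩
        by_cases h4 : w = T.r
        · exact Or.inl h4
        · right
          have h5 : l.idxOf (T.par w) ≠ i := by
            intro h5
            have h6 : T.par w ∈ l := (hmem _).2 (Or.inr ⟨h4, rfl⟩)
            have h7 : T.par w = l.get i := (List.idxOf_inj h6).1 (h5.trans (hidx i).symm)
            have h8 := h1.dep
            have h9 := T.dep_par w h4
            rw [h7] at h9
            omega
          have : ¬ (i : ℕ) < l.idxOf (T.par w) := fun h => h3 ⟨h4, h⟩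
          omega
    · exact Or.inr ⟨h1.1, h1.2, by rw [h1.2, hidx]⟩
  have hi := i.2
  have hj := j.2
  have hk := k.2
  have hij' : (i : ℕ) < j := hij
  have hjk' : (j : ℕ) < k := hjk
  rcases hcase i with ⟨c1, d1⟩ | ⟨c1, d1, e1⟩ <;> rcases hcase j with ⟨c2, d2⟩ | ⟨c2, d2, e2⟩ <;>
    rcases hcase k with ⟨c3, d3⟩ | ⟨c3, d3, e3⟩
  · rcases d1 with ⟨a1, b1, d1⟩ | ⟨a1, d1⟩ <;> rcases d2 with ⟨a2, b2, d2⟩ | ⟨a2, d2⟩ <;>
      rcases d3 with ⟨a3, b3, d3⟩ | ⟨a3, d3⟩
    · exact h.ccw_children c1 c2 c3 (by omega) (by omega)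
    · exact (h.ccw_children c3 c1 c2 (by omega) (by omega)).cyc
    · exact absurd (a2.resolve_left a1) (by omega)
    · exact (h.ccw_children c2 c3 c1 (by omega) (by omega)).cyc.cyc
    · exact absurd (a1.resolve_left a2) (by omega)
    · exact absurd (a1.resolve_left a2) (by omega)
    · exact absurd (a1.resolve_left a3) (by omega)
    · exact h.ccw_children c1 c2 c3 (by omega) (by omega)
  · rw [← d3]
    rcases d1 with ⟨-, -, d1⟩ | ⟨a1, d1⟩
    · rcases d2 with ⟨-, -, d2⟩ | ⟨a2, d2⟩
      · exact (h.ccw_parent c3 c1 c2 (by omega)).cyc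
      · exact absurd (a2.resolve_left c3) (by omega)
    · exact absurd (a1.resolve_left c3) (by omega)
  · rw [← d2]
    rcases d1 with ⟨-, -, d1⟩ | ⟨a1, d1⟩
    · rcases d3 with ⟨-, a3, d3⟩ | ⟨a3, d3⟩
      · omega
      · exact (h.ccw_parent c2 c3 c1 (by omega)).cyc.cyc
    · exact absurd (a1.resolve_left c2) (by omega)
  · omega
  · rw [← d1]
    rcases d2 with ⟨-, a2, d2⟩ | ⟨a2, d2⟩
    · omega
    · rcases d3 with ⟨-, a3, d3⟩ | ⟨a3, d3⟩
      · omega
      · exact h.ccw_parent c1 c2 c3 (by omega)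
  · omega
  · omega
  · omega

end Pool.Agent.P.MP_14bd88_co
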