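import Pool.Agent.P.MP_14bd88_co.FromGraph

namespace Pool.Agent.P.MP_14bd88_co

open Finset

/-- vertex type of the host -/
abbrev HV (N L : ℕ) : Type := Fin N × Fin (L + 1) × Bool

/-- horizontal coordinate -/
def hX {N L : ℕ} (u : HV N L) : ℕ := u.1 * (2 * (L + 1)) + (2 * u.2.1 + u.2.2.toNat)

lemma hX_small {N L : ℕ} (u : HV N L) : 2 * u.2.1 + u.2.2.toNat < 2 * (L + 1) := by
  have := u.2.1.2
  have := Bool.toNat_le u.2.2
  omega

lemma lt_of_mul_add {M a b c d : ℕ} (hb : b < M) (h : a < c) : a * M + b < c * M + d := by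
  have : (a + 1) * M ≤ c * M := Nat.mul_le_mul_right _ h
  rw [add_mul] at this
  omega

lemma eq_of_mul_add {M a b c d : ℕ} (hb : b < M) (hd : d < M) (h : a * M + b = c * M + d) :
    a = c ∧ b = d := by
  rcases lt_trichotomy a c with h1 | h1 | h1
  · have := lt_of_mul_add (d := d) hb h1; omega
  · subst h1; omega
  · have := lt_of_mul_add (d := b) hd h1; omega

lemma hX_inj {N L : ℕ} : Function.Injective (hX (N := N) (L := L)) := by
  rintro ⟨x, j, b⟩ ⟨x', j', b'⟩ h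
  obtain ⟨h1, h2⟩ := eq_of_mul_add (hX_small (x, j, b)) (hX_small (x', j', b')) h
  simp only at h1 h2
  have h3 : (j : ℕ) = j' ∧ b = b' := by
    cases b <;> cases b' <;> simp at h2 ⊢ <;> omega
  simp [Fin.ext h1, Fin.ext h3.1, h3.2]

lemma hX_lt {N L : ℕ} (u : HV N L) : hX u < N * (2 * (L + 1)) := by
  simpa [hX] using lt_of_mul_add (d := 0) (hX_small u) u.1.2

/-- the host point set -/
def hPts (N L : ℕ) : Pts (HV N L) where
  M := N * (2 * (L + 1))
  X := hX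
  e u := u.2.1 * (N * (2 * (L + 1))) + hX u
  s u := if u.2.2 then 1 else -1
  X_inj := hX_inj
  X_lt := hX_lt
  e_inj u v h := hX_inj (eq_of_mul_add (hX_lt u) (hX_lt v) h).2
  s_cases u := by split_ifs <;> simp

/-- the host graph -/
def hG (N L : ℕ) (g Rg : ℕ → ℕ) : SimpleGraph (HV N L) where
  Adj u v := u ≠ v ∧ g u.2.1 ∣ u.1 ∧ g v.2.1 ∣ v.1 ∧
    (u.1 : ℕ) ≤ v.1 + Rg (max u.2.1 v.2.1) ∧ (v.1 : ℕ) ≤ u.1 + Rg (max u.2.1 v.2.1)
  symm := ⟨fun u v ⟨h1, h2, h3, h4, h5⟩ =>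
    ⟨h1.symm, h3, h2, by rwa [max_comm], by rwa [max_comm]⟩⟩
  loopless := ⟨fun u h => h.1 rfl⟩

lemma lvl_count {N L : ℕ} {g : ℕ} (hg : 0 < g) (j : Fin (L + 1)) (lo len : ℕ) :
    (((univ : Finset (HV N L)).filter
      (fun u => u.2.1 = j ∧ g ∣ u.1 ∧ lo ≤ u.1 ∧ (u.1 : ℕ) ≤ lo + len)).card : ℝ) ≤
      2 * (len / g + 2) := by
  have h1 : ((univ : Finset (HV N L)).filter
      (fun u => u.2.1 = j ∧ g ∣ u.1 ∧ lo ≤ u.1 ∧ (u.1 : ℕ) ≤ lo + len)).card ≤
      (Icc (lo / g) ((lo + len) / g) ×ˢ (univ : Finset Bool)).card := by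
    refine card_le_card_of_injOn (fun u => ((u.1 : ℕ) / g, u.2.2)) ?_ ?_
    · intro u hu
      simp only [coe_filter, mem_univ, true_and, Set.mem_ofPred_eq] at hu
      simp only [coe_product, coe_Icc, coe_univ, Set.mem_prod, Set.mem_Icc, Set.mem_univ,
        and_true]
      exact ⟨Nat.div_le_div_right hu.2.2.1, Nat.div_le_div_right hu.2.2.2⟩
    · rintro ⟨x, i, b⟩ hu ⟨x', i', b'⟩ hv h
      simp only [coe_filter, mem_univ, true_and, Set.mem_ofPred_eq] at hu hv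
      simp only [Prod.mk.injEq] at h ⊢
      refine ⟨Fin.ext ?_, hu.1.trans hv.1.symm, h.2⟩
      rw [← Nat.div_mul_cancel hu.2.1, ← Nat.div_mul_cancel hv.2.1, h.1]
  rw [card_product, Nat.card_Icc, card_univ, Fintype.card_bool] at h1
  have h2 := Nat.add_div (a := lo) (b := len) hg
  have h3 : ((univ : Finset (HV N L)).filter
      (fun u => u.2.1 = j ∧ g ∣ u.1 ∧ lo ≤ u.1 ∧ (u.1 : ℕ) ≤ lo + len)).card ≤
      2 * (len / g + 2) := by
    split_ifs at h2 <;> omega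
  have h4 : ((len / g : ℕ) : ℝ) ≤ len / g := Nat.cast_div_le
  have h5 : (((univ : Finset (HV N L)).filter
      (fun u => u.2.1 = j ∧ g ∣ u.1 ∧ lo ≤ u.1 ∧ (u.1 : ℕ) ≤ lo + len)).card : ℝ) ≤
      2 * ((len / g : ℕ) + 2) := by exact_mod_cast h3
  linarith

lemma edge_count (N L : ℕ) (g Rg : ℕ → ℕ) (hg : ∀ j, 0 < g j) :
    ((hG N L g Rg).edgeSet.ncard : ℝ) ≤ ∑ j : Fin (L + 1), 2 * ((N : ℝ) / g j + 2) *
      ∑ i : Fin (L + 1), if i ≤ j then 2 * ((2 * Rg j : ℕ) / (g i : ℝ) + 2) else 0 := by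
  classical
  let U : Fin (L + 1) → Finset (HV N L) := fun j =>
    univ.filter (fun u => u.2.1 = j ∧ g j ∣ u.1 ∧ 0 ≤ (u.1 : ℕ) ∧ (u.1 : ℕ) ≤ 0 + N)
  let D : HV N L → Fin (L + 1) → Finset (HV N L) := fun u i => if i ≤ u.2.1 then
    univ.filter (fun v => v.2.1 = i ∧ g i ∣ v.1 ∧ u.1 - Rg u.2.1 ≤ v.1 ∧
      (v.1 : ℕ) ≤ u.1 - Rg u.2.1 + 2 * Rg u.2.1) else ∅
  let A : Finset (Sym2 (HV N L)) := univ.biUnion fun j => (U j).biUnion fun u =>
    univ.biUnion fun i => (D u i).image fun v => s(u, v)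
  have key : ∀ u v : HV N L, (hG N L g Rg).Adj u v → v.2.1 ≤ u.2.1 → s(u, v) ∈ A := by
    rintro u v ⟨-, h2, h3, h4, h5⟩ h
    rw [max_eq_left (show (v.2.1 : ℕ) ≤ u.2.1 from h)] at h4 h5
    simp only [A, mem_biUnion, mem_univ, true_and, mem_image]
    refine ⟨u.2.1, u, ?_, v.2.1, v, ?_, rfl⟩
    · simp only [U, mem_filter, mem_univ, true_and]
      exact ⟨h2, Nat.zero_le _, by have := u.1.2; omega⟩
    · simp only [D, if_pos h, mem_filter, mem_univ, true_and]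
      exact ⟨h3, by omega, by omega⟩
  have h1 : (hG N L g Rg).edgeSet ⊆ (A : Set _) := by
    intro e he
    induction e using Sym2.ind with
    | _ u v =>
      rcases le_total v.2.1 u.2.1 with h | h
      · exact key u v he h
      · rw [Sym2.eq_swap]; exact key v u (SimpleGraph.Adj.symm he) h
  have h2 : (hG N L g Rg).edgeSet.ncard ≤ A.card := by
    rw [← Set.ncard_coe_finset]
    exact Set.ncard_le_ncard h1 (finite_toSet _)
  have h3 : A.card ≤ ∑ j, ∑ u ∈ U j, ∑ i, (D u i).card :=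
    card_biUnion_le.trans (sum_le_sum fun j _ => card_biUnion_le.trans (sum_le_sum fun u _ =>
      card_biUnion_le.trans (sum_le_sum fun i _ => card_image_le)))
  have h4 : ((hG N L g Rg).edgeSet.ncard : ℝ) ≤ ∑ j, ∑ u ∈ U j, ∑ i, ((D u i).card : ℝ) := by
    exact_mod_cast h2.trans h3
  refine h4.trans (sum_le_sum fun j _ => ?_)
  have h5 : ∀ u ∈ U j, ∑ i, ((D u i).card : ℝ) ≤
      ∑ i : Fin (L + 1), if i ≤ j then 2 * ((2 * Rg j : ℕ) / (g i : ℝ) + 2) else 0 := by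
    intro u hu
    have h6 : u.2.1 = j := (mem_filter.1 hu).2.1
    refine sum_le_sum fun i _ => ?_
    simp only [D, h6]
    split_ifs
    · exact lvl_count (hg i) i _ _
    · simp
  refine (sum_le_card_nsmul _ _ _ h5).trans ?_
  rw [nsmul_eq_mul]
  refine mul_le_mul_of_nonneg_right (lvl_count (hg j) j 0 N) (sum_nonneg fun i _ => ?_)
  split_ifs <;> positivity

end Pool.Agent.P.MP_14bd88_co
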