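import Pool.Agent.P.MP_14bd88_co.Block

namespace Pool.Agent.P.MP_14bd88_co

open Finset

/-- grid spacings and blow-up factors -/
structure Grid where
  g : ℕ → ℕ
  F : ℕ → ℕ
  g_pos : ∀ j, 0 < g j
  F_mono : Monotone F
  h0 : g 0 < F 0
  hs : ∀ j, 6 * g (j + 1) + 2 ^ (j + 1) * F j ≤ 2 ^ (j + 1) * F (j + 1)

/-- length allotted to a subtree of size `n` -/
def Grid.f (G : Grid) (n : ℕ) : ℕ := n * G.F (Nat.log 2 n)

namespace RT

variable {V : Type} [Fintype V] (T : RT V) (G : Grid)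

/-- total length of the earlier components -/
noncomputable def pre (c : V) : ℕ :=
  ∑ c' ∈ (T.R (T.blk (T.par c))).filter (fun c' => T.kap c' < T.kap c), G.f (T.sz c')

open Classical in
/-- offset of the interval of a component -/
noncomputable def off (c : V) : ℕ :=
  if T.isQ c then 0 else T.pre G c + (if T.gam c ≤ 1 then 0 else 3 * G.g (T.lv (T.par c)))

/-- left end of the interval -/
noncomputable def a : V → ℕ :=
  (exists_rec (T := T) (0 : ℕ) (fun v x => x + T.off G v)).choose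

/-- total length of components in groups up to `i` -/
noncomputable def S (i : ℕ) (P : V) : ℕ :=
  ∑ c ∈ (T.R P).filter (fun c => T.gam c ≤ i), G.f (T.sz c)

open Classical in
/-- horizontal position -/
noncomputable def x (u : V) : ℕ :=
  G.g (T.lv u) * ((T.a G (T.blk u) + T.S G 1 (T.blk u)) / G.g (T.lv u) + 1) +
    (if T.isQ u then G.g (T.lv u) else 0)

variable {T G}

lemma a_r : T.a G T.r = 0 :=
  (exists_rec (T := T) (0 : ℕ) (fun v x => x + T.off G v)).choose_spec.1

lemma a_eq {v : V} (h : v ≠ T.r) : T.a G v = T.a G (T.par v) + T.off G v :=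
  (exists_rec (T := T) (0 : ℕ) (fun v x => x + T.off G v)).choose_spec.2 v h

lemma a_blk (u : V) : T.a G (T.blk u) = T.a G u := by
  by_cases h : T.isQ u
  · rw [blk_of_isQ h, a_eq h.ne_r]
    simp [off, h]
  · rw [blk_of_not h]

lemma dvd_x (u : V) : G.g (T.lv u) ∣ T.x G u := by
  unfold x
  split_ifs
  · exact dvd_add (dvd_mul_right _ _) dvd_rfl
  · exact dvd_add (dvd_mul_right _ _) (dvd_zero _)

lemma x_bounds {P : V} (hP : ¬ T.isQ P) :
    T.a G P + T.S G 1 P < T.x G P ∧ T.x G P ≤ T.a G P + T.S G 1 P + G.g (T.lv P) := by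
  unfold x
  rw [if_neg hP, blk_of_not hP]
  have h1 := Nat.div_add_mod (T.a G P + T.S G 1 P) (G.g (T.lv P))
  have h2 := Nat.mod_lt (T.a G P + T.S G 1 P) (G.g_pos (T.lv P))
  rw [mul_add]
  omega

lemma x_of_isQ {q : V} (h : T.isQ q) : T.x G q = T.x G (T.par q) + G.g (T.lv (T.par q)) := by
  have h1 : T.lv q = T.lv (T.par q) := by rw [← lv_blk q, blk_of_isQ h]
  unfold x
  rw [if_pos h, if_neg h.par, blk_of_isQ h, blk_of_not h.par, h1]
  simp

/-- both members of a block lie in the central gap -/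
lemma x_gap (u : V) : T.a G (T.blk u) + T.S G 1 (T.blk u) < T.x G u ∧
    T.x G u < T.a G (T.blk u) + T.S G 1 (T.blk u) + 3 * G.g (T.lv (T.blk u)) := by
  have h1 := x_bounds (G := G) (not_isQ_blk (T := T) u)
  have h2 := G.g_pos (T.lv (T.blk u))
  by_cases h : T.isQ u
  · rw [x_of_isQ h, ← blk_of_isQ h]
    omega
  · rw [blk_of_not h] at h1 h2 ⊢
    omega

lemma a_of_R {P c : V} (h : c ∈ T.R P) : T.a G c = T.a G P +
    ∑ c' ∈ (T.R P).filter (fun c' => T.kap c' < T.kap c), G.f (T.sz c') +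
      (if T.gam c ≤ 1 then 0 else 3 * G.g (T.lv P)) := by
  obtain ⟨h1, h2, h3⟩ := mem_R.1 h
  rw [a_eq h1, ← a_blk (T.par c), h3]
  unfold off pre
  rw [if_neg h2, h3, ← lv_blk (T.par c), h3, add_assoc]

lemma pre_add_le {P c : V} (h : c ∈ T.R P) (p : V → Prop) [DecidablePred p] (hc : p c)
    (hp : ∀ c' ∈ T.R P, T.kap c' < T.kap c → p c') :
    ∑ c' ∈ (T.R P).filter (fun c' => T.kap c' < T.kap c), G.f (T.sz c') + G.f (T.sz c) ≤
      ∑ c' ∈ (T.R P).filter p, G.f (T.sz c') := by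
  classical
  rw [add_comm, ← sum_insert (f := fun c' => G.f (T.sz c')) (by simp)]
  refine sum_le_sum_of_subset ?_
  intro c' hc'
  simp only [mem_insert, mem_filter] at hc' ⊢
  rcases hc' with rfl | ⟨h1, h2⟩
  · exact ⟨h, hc⟩
  · exact ⟨h1, hp c' h1 h2⟩

lemma a_le_of_R {P c : V} (h : c ∈ T.R P) : T.a G P ≤ T.a G c := by
  rw [a_of_R h]; omega

lemma a_order {P c c' : V} (h : c ∈ T.R P) (h' : c' ∈ T.R P) (hk : T.kap c < T.kap c') :
    T.a G c + G.f (T.sz c) ≤ T.a G c' := by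
  have h1 := pre_add_le (G := G) h (fun c'' => T.kap c'' < T.kap c') hk
    (fun _ _ h2 => h2.trans hk)
  have h2 := kap_lt.1 hk
  rw [a_of_R h, a_of_R h']
  split_ifs <;> omega

lemma a_le_S {P c : V} (h : c ∈ T.R P) {i : ℕ} (hi : T.gam c ≤ i) :
    T.a G c + G.f (T.sz c) ≤ T.a G P + T.S G i P +
      (if T.gam c ≤ 1 then 0 else 3 * G.g (T.lv P)) := by
  have h1 := pre_add_le (G := G) h (fun c'' => T.gam c'' ≤ i) hi (fun c' _ h2 => by
    have := kap_lt.1 h2
    omega)
  rw [a_of_R h]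
  unfold S
  omega

lemma S_le_a {P c : V} (h : c ∈ T.R P) {i : ℕ} (hi : i < T.gam c) (h1 : 1 ≤ i) :
    T.a G P + T.S G i P + 3 * G.g (T.lv P) ≤ T.a G c := by
  have h2 : T.S G i P ≤
      ∑ c' ∈ (T.R P).filter (fun c' => T.kap c' < T.kap c), G.f (T.sz c') := by
    refine sum_le_sum_of_subset ?_
    intro c' hc'
    simp only [mem_filter] at hc' ⊢
    exact ⟨hc'.1, kap_lt.2 (Or.inl (by omega))⟩
  rw [a_of_R h, if_neg (by omega)]
  omega

lemma a_of_four {P c : V} (h : c ∈ T.R P) (h4 : T.gam c = 4) :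
    T.a G c = T.a G P + T.S G 3 P + 3 * G.g (T.lv P) := by
  rw [a_of_R h, if_neg (by omega)]
  unfold S
  congr 3
  ext c'
  simp only [mem_filter, and_congr_right_iff]
  intro h'
  rw [kap_lt]
  have := gam_le (T := T) c'
  constructor
  · rintro (h1 | ⟨h1, h2⟩)
    · omega
    · rw [eq_of_four h' h (by omega) h4] at h2
      omega
  · intro h1
    left
    omega

lemma S_mono {P : V} {i j : ℕ} (h : i ≤ j) : T.S G i P ≤ T.S G j P := by
  refine sum_le_sum_of_subset ?_
  intro c hc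
  simp only [mem_filter] at hc ⊢
  exact ⟨hc.1, by omega⟩

lemma S_three_le {P c : V} (hP : ¬ T.isQ P) (h : T.Ch P c) :
    T.S G 3 P + 3 * G.g (T.lv P) ≤ T.B P * G.F (T.lv P) := by
  have hB : 2 ≤ T.B P := by unfold B; omega
  have hB' := B_le_sz hP h
  have hl : T.lv P = Nat.log 2 (min (2 * T.B P) (T.sz P)) := by
    unfold lv; rw [blk_of_not hP]
  have h1 : 2 ^ T.lv P ≤ 2 * T.B P := by
    rw [hl]
    exact (Nat.pow_log_le_self 2 (by omega)).trans (min_le_left _ _)
  have h2 : 1 ≤ T.lv P := by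
    rw [hl]
    exact Nat.log_pos (by norm_num) (by omega)
  obtain ⟨j, hj⟩ : ∃ j, T.lv P = j + 1 := ⟨T.lv P - 1, by omega⟩
  have h3 : T.S G 3 P ≤ T.B P * G.F j := by
    have : T.S G 3 P ≤ ∑ c ∈ (T.R P).filter (fun c => T.gam c ≤ 3), T.sz c * G.F j := by
      refine sum_le_sum fun c hc => ?_
      have := log_lt_lv (mem_filter.1 hc).1 (mem_filter.1 hc).2
      exact Nat.mul_le_mul_left _ (G.F_mono (by omega))
    rw [← sum_mul] at this
    refine this.trans (Nat.mul_le_mul_right _ ?_)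
    unfold B
    omega
  have h4 := G.hs j
  rw [hj] at h1 ⊢
  obtain ⟨D, hD⟩ := Nat.exists_eq_add_of_le (G.F_mono (Nat.le_succ j))
  rw [Nat.succ_eq_add_one] at hD
  rw [hD] at h4 ⊢
  have h5 : 2 ^ (j + 1) * D ≤ 2 * T.B P * D := Nat.mul_le_mul_right _ h1
  nlinarith

lemma S_four_le {P c : V} (hP : ¬ T.isQ P) (h : T.Ch P c) :
    T.S G 4 P + 3 * G.g (T.lv P) ≤ G.f (T.sz P) := by
  have h1 := S_three_le (G := G) hP h
  have h2 : T.S G 4 P = T.S G 3 P +
      ∑ c ∈ (T.R P).filter (fun c => ¬ T.gam c ≤ 3), G.f (T.sz c) := by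
    unfold S
    rw [sum_filter_add_sum_filter_not, filter_true_of_mem (fun c _ => gam_le c)]
  have h3 : T.sz P = T.B P + ∑ c ∈ (T.R P).filter (fun c => ¬ T.gam c ≤ 3), T.sz c := by
    unfold B
    rw [add_assoc, sum_filter_add_sum_filter_not, sz_eq_R hP h]
  have h4 : ∑ c ∈ (T.R P).filter (fun c => ¬ T.gam c ≤ 3), G.f (T.sz c) ≤
      (∑ c ∈ (T.R P).filter (fun c => ¬ T.gam c ≤ 3), T.sz c) * G.F (Nat.log 2 (T.sz P)) := by
    rw [sum_mul]
    refine sum_le_sum fun c hc => ?_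
    exact Nat.mul_le_mul_left _ (G.F_mono (Nat.log_mono_right (R_sz_lt (mem_filter.1 hc).1).le))
  have h5 : T.B P * G.F (T.lv P) ≤ T.B P * G.F (Nat.log 2 (T.sz P)) :=
    Nat.mul_le_mul_left _ (G.F_mono ((Desc.refl (T := T) (v := P)).lv_le hP))
  have h6 : G.f (T.sz P) = T.B P * G.F (Nat.log 2 (T.sz P)) +
      (∑ c ∈ (T.R P).filter (fun c => ¬ T.gam c ≤ 3), T.sz c) * G.F (Nat.log 2 (T.sz P)) := by
    rw [← add_mul, ← h3]; rfl
  omega

lemma ch_of_R {P c : V} (h : c ∈ T.R P) : ∃ c', T.Ch P c' := by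
  by_contra h1
  push Not at h1
  rw [R_eq_empty h1] at h
  simp at h

lemma a_add_le_of_R {P c : V} (h : c ∈ T.R P) :
    T.a G c + G.f (T.sz c) ≤ T.a G P + G.f (T.sz P) := by
  obtain ⟨c', hc'⟩ := ch_of_R h
  have hP : ¬ T.isQ P := (mem_R.1 h).2.2 ▸ not_isQ_blk _
  have h1 := S_four_le (G := G) hP hc'
  have h2 := a_le_S (G := G) h (gam_le c)
  split_ifs at h2 <;> omega

lemma x_lt_blk (u : V) : T.x G u < T.a G (T.blk u) + G.f (T.sz (T.blk u)) := by
  by_cases h : ∃ c, T.Ch (T.blk u) c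
  · obtain ⟨c, hc⟩ := h
    have h1 := S_four_le (G := G) (not_isQ_blk u) hc
    have h2 := (x_gap (T := T) (G := G) u).2
    have h3 := S_mono (T := T) (G := G) (P := T.blk u) (show 1 ≤ 4 by norm_num)
    omega
  · push Not at h
    have hq : ¬ T.isQ u := fun hq => h u (blk_of_isQ hq ▸ hq.ch)
    rw [blk_of_not hq] at h ⊢
    have h1 := (x_bounds (G := G) hq).2
    have h2 : T.S G 1 u = 0 := by unfold S; rw [R_eq_empty h]; simp
    have h3 : T.lv u = 0 := by
      have := (Desc.refl (T := T) (v := u)).lv_le hq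
      rw [sz_leaf h] at this
      simpa using this
    have h4 := G.h0
    rw [sz_leaf h]
    rw [h2, h3] at h1
    simp only [Grid.f, Nat.log_one_right]
    omega

/-- a subtree stays in its interval -/
lemma Desc.x_mem {c w : V} (hc : ¬ T.isQ c) (h : T.Desc c w) :
    T.a G c ≤ T.x G w ∧ T.x G w < T.a G c + G.f (T.sz c) := by
  induction hn : T.sz c using Nat.strong_induction_on generalizing c with
  | _ n ih =>
    subst hn
    rcases h.decomp hc with h1 | ⟨c', hc', h1⟩
    · have h2 := (x_gap (T := T) (G := G) w).1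
      have h3 := x_lt_blk (T := T) (G := G) w
      rw [h1] at h2 h3
      omega
    · have h2 := ih _ (R_sz_lt hc') (mem_R.1 hc').2.1 h1 rfl
      have h3 := a_le_of_R (G := G) hc'
      have h4 := a_add_le_of_R (G := G) hc'
      omega

/-- position of a component relative to the gap of the block -/
lemma x_side {c u : V} (h : c ∈ T.R (T.blk u)) :
    (T.gam c ≤ 1 ∧ T.a G c + G.f (T.sz c) < T.x G u) ∨ (2 ≤ T.gam c ∧ T.x G u < T.a G c) := by
  have h1 := x_gap (T := T) (G := G) u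
  by_cases h2 : T.gam c ≤ 1
  · have h3 := a_le_S (G := G) h h2
    rw [if_pos h2] at h3
    exact Or.inl ⟨h2, by omega⟩
  · have h3 := S_le_a (G := G) h (i := 1) (by omega) le_rfl
    exact Or.inr ⟨by omega, by omega⟩

/-- only the subtree meets its interval -/
lemma desc_of_x_mem {P w : V} (hP : ¬ T.isQ P) (h1 : T.a G P ≤ T.x G w)
    (h2 : T.x G w < T.a G P + G.f (T.sz P)) : T.Desc P w := by
  induction hn : T.dep P using Nat.strong_induction_on generalizing P with
  | _ n ih =>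
    subst hn
    by_cases hr : P = T.r
    · exact hr ▸ desc_root w
    have hR : P ∈ T.R (T.blk (T.par P)) := mem_R.2 ⟨hr, hP, rfl⟩
    have h3 := a_le_of_R (G := G) hR
    have h4 := a_add_le_of_R (G := G) hR
    have h5 := ih _ (R_dep_lt hR) (not_isQ_blk _) (by omega) (by omega) rfl
    rcases h5.decomp (not_isQ_blk _) with h6 | ⟨c, hc, h6⟩
    · rw [← h6] at hR
      rcases x_side (G := G) hR with h7 | h7 <;> omega
    · have h7 := h6.x_mem (G := G) (mem_R.1 hc).2.1
      rcases lt_trichotomy (T.kap c) (T.kap P) with h8 | h8 | h8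
      · have := a_order (G := G) hc hR h8
        omega
      · exact kap_inj hc hR h8 ▸ h6
      · have := a_order (G := G) hR hc h8
        omega

lemma x_inj {u v : V} (h : T.x G u = T.x G v) : u = v := by
  have h1 := (desc_blk (T := T) u).x_mem (G := G) (not_isQ_blk u)
  have h2 : T.Desc (T.blk u) v := desc_of_x_mem (G := G) (not_isQ_blk u) (by omega) (by omega)
  rcases h2.decomp (not_isQ_blk u) with h3 | ⟨c, hc, h3⟩
  · by_contra hne
    have := G.g_pos (T.lv u)
    have := G.g_pos (T.lv v)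
    rcases blk_eq h3.symm hne with ⟨h4, -, h5⟩ | ⟨h4, -, h5⟩ <;>
      have h6 := x_of_isQ (G := G) h4 <;> rw [h5] at h6 <;> omega
  · have h4 := h3.x_mem (G := G) (mem_R.1 hc).2.1
    rcases x_side (G := G) hc with h7 | h7 <;> omega

lemma x_lt (u : V) : T.x G u < G.f (Fintype.card V) := by
  have := ((desc_root (T := T) u).x_mem (G := G) not_isQ_r).2
  rwa [a_r, sz_root, zero_add] at this

lemma lv_le (u : V) : T.lv u ≤ Nat.log 2 (Fintype.card V) := by
  have := (desc_root (T := T) u).lv_le not_isQ_r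
  rwa [sz_root] at this

end RT

end Pool.Agent.P.MP_14bd88_co
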