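import Pool.Agent.P.MP_14bd88_co.Layout

namespace Pool.Agent.P.MP_14bd88_co

open Finset

/-- cyclic order of three integers -/
def Cyc (a b c : ℤ) : Prop := (a < b ∧ b < c) ∨ (b < c ∧ c < a) ∨ (c < a ∧ a < b)

namespace RT

variable {V : Type} [Fintype V] {T : RT V} {G : Grid}

lemma mem_R_blk {c : V} (hr : c ≠ T.r) (hq : ¬ T.isQ c) : c ∈ T.R (T.blk (T.par c)) :=
  mem_R.2 ⟨hr, hq, rfl⟩

lemma x_self {c : V} (hq : ¬ T.isQ c) :
    T.a G c ≤ T.x G c ∧ T.x G c < T.a G c + G.f (T.sz c) :=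
  (Desc.refl (T := T) (v := c)).x_mem hq

/-- what lies horizontally between the two ends of an edge -/
lemma span {c b : V} (hr : c ≠ T.r)
    (hb : (T.x G c < T.x G b ∧ T.x G b < T.x G (T.par c)) ∨
      (T.x G (T.par c) < T.x G b ∧ T.x G b < T.x G c)) :
    ¬ T.isQ c ∧ ((T.gam c ≤ 3 ∧ T.blk b = T.blk (T.par c)) ∨
      ∃ c', (c' ∈ T.R (T.blk (T.par c)) ∨ (T.gam c = 4 ∧ c' ∈ T.R c)) ∧ T.gam c' ≤ 3 ∧
        T.Desc c' b) := by
  have hP := not_isQ_blk (T := T) (T.par c)
  have h1 := (desc_blk (T := T) (T.par c)).x_mem (G := G) hP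
  have h2 := (Desc.step c hr (desc_blk (T := T) (T.par c))).x_mem (G := G) hP
  have h3 : T.Desc (T.blk (T.par c)) b := desc_of_x_mem (G := G) hP (by omega) (by omega)
  have hq : ¬ T.isQ c := by
    intro hq
    have h4 := x_of_isQ (G := G) hq
    rcases h3.decomp hP with h5 | ⟨c', hc', h5⟩
    · by_cases h6 : b = T.par c
      · rw [h6] at hb; omega
      · rcases blk_eq h5 h6 with ⟨h7, -, h8⟩ | ⟨h7, -, -⟩
        · have : b = c := by rw [h7.eq_hv, h8, ← hq.eq_hv]
          rw [this] at hb; omega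
        · exact hq.par h7
    · have h6 := h5.x_mem (G := G) (mem_R.1 hc').2.1
      have h7 := x_side (G := G) hc'
      have h8 : c' ∈ T.R (T.blk c) := by
        rwa [blk_of_isQ hq, ← blk_of_not hq.par]
      have h9 := x_side (G := G) h8
      omega
  refine ⟨hq, ?_⟩
  have hR := mem_R_blk hr hq
  have hc := x_self (G := G) hq
  rcases h3.decomp hP with h5 | ⟨c', hc', h5⟩
  · left
    refine ⟨?_, h5⟩
    by_contra h6
    have h4 : T.gam c = 4 := by have := gam_le (T := T) c; omega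
    have h7 := isQ_par_of_four hR h4
    have h8 := x_side (G := G) hR
    have h9 := x_side (G := G) (u := b) (h5 ▸ hR)
    by_cases h10 : b = T.par c
    · rw [h10] at hb; omega
    · rcases blk_eq h5 h10 with ⟨-, h11, -⟩ | ⟨-, -, h11⟩
      · exact h11 h7
      · have := x_of_isQ (G := G) h7
        rw [h11] at this
        omega
  · right
    by_cases h6 : T.gam c' ≤ 3
    · exact ⟨c', Or.inl hc', h6, h5⟩
    · have h4 : T.gam c' = 4 := by have := gam_le (T := T) c'; omega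
      have h7 := h5.x_mem (G := G) (mem_R.1 hc').2.1
      have h8 := x_side (G := G) hc'
      by_cases h9 : T.gam c = 4
      · obtain rfl : c' = c := eq_of_four hc' hR h4 h9
        rcases h5.decomp hq with h10 | ⟨c'', hc'', h10⟩
        · by_cases h11 : b = c'
          · rw [h11] at hb; omega
          · rcases blk_eq (h10.trans (blk_of_not hq).symm) h11 with ⟨h12, -, h13⟩ | ⟨h12, -, -⟩
            · have := x_of_isQ (G := G) h12
              rw [h13] at this
              omega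
            · exact absurd h12 hq
        · refine ⟨c'', Or.inr ⟨h9, hc''⟩, ?_, h10⟩
          have h11 := h10.x_mem (G := G) (mem_R.1 hc'').2.1
          have h12 := x_side (G := G) (u := c') (c := c'') (by rwa [blk_of_not hq])
          omega
      · have := a_order (G := G) hR hc' (kap_lt.2 (Or.inl (by
          have := gam_le (T := T) c; omega)))
        omega

/-- adjacency in the tree -/
def Adj (T : RT V) (u v : V) : Prop := T.Ch u v ∨ T.Ch v u

lemma lv_lt_par {c : V} (hr : c ≠ T.r) (hq : ¬ T.isQ c) (h3 : T.gam c ≤ 3) :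
    T.lv c < T.lv (T.par c) := by
  rw [← lv_blk (T.par c)]
  exact lv_lt_of_light (mem_R_blk hr hq) h3 Desc.refl

lemma no_cross_aux {a b c t : V} (hab : T.Adj a b) (hr : c ≠ T.r) (ht : t = c ∨ t = T.par c)
    (hac : a ≠ c) (hau : a ≠ T.par c) (hbu : b ≠ T.par c)
    (h1 : T.lv b ≤ T.lv a) (h2 : T.lv t ≤ T.lv a) (h3 : T.lv c ≤ T.lv t)
    (h4 : T.lv (T.par c) ≤ T.lv t)
    (hb : (T.x G c < T.x G b ∧ T.x G b < T.x G (T.par c)) ∨
      (T.x G (T.par c) < T.x G b ∧ T.x G b < T.x G c)) :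
    T.sg a = T.sg b ∧ T.sg t ≠ T.sg a := by
  obtain ⟨hq, h⟩ := span hr hb
  have hs : T.sg t = T.sg (T.par c) := by
    rcases ht with rfl | rfl
    · exact sg_of_not hr hq
    · rfl
  have hsa := sg_cases (T := T) a
  rw [hs]
  rcases h with ⟨h5, h6⟩ | ⟨c', hc', h5, h6⟩
  · have h7 := sg_ne_of_blk h6 hbu
    have h8 : T.sg a = T.sg b := by
      rcases hab with h9 | h9
      · have h10 : ¬ T.isQ b := by
          intro h10
          rcases blk_eq h6 hbu with ⟨-, -, h11⟩ | ⟨-, h11, -⟩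
          · exact hau (h9.2.symm.trans h11)
          · exact h11 h10
        rw [sg_of_not h9.1 h10, h9.2]
      · have h10 : ¬ T.isQ a := by
          intro h10
          rcases blk_eq h6 hbu with ⟨h11, -, -⟩ | ⟨h11, -, h12⟩
          · exact h10.par (h9.2 ▸ h11)
          · exact hau (by rw [h10.eq_hv, h11.eq_hv, h9.2, h12])
        rw [sg_of_not h9.1 h10, h9.2]
    omega
  · obtain ⟨P, hP, hl, hP'⟩ : ∃ P, c' ∈ T.R P ∧ T.lv P ≤ T.lv t ∧
        (P = T.blk (T.par c) ∨ P = c) := by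
      rcases hc' with h7 | ⟨-, h7⟩
      · exact ⟨_, h7, by rwa [lv_blk], Or.inl rfl⟩
      · exact ⟨_, h7, h3, Or.inr rfl⟩
    have h7 : ¬ T.Desc c' a := fun h => by
      have := lv_lt_of_light hP h5 h
      omega
    have h8 : b = c' ∧ T.par b = a := by
      rcases hab with h9 | h9
      · rcases h6.cases with h10 | ⟨-, h10⟩
        · exact ⟨h10, h9.2⟩
        · exact absurd (h9.2 ▸ h10) h7
      · exact absurd (h6.trans h9.desc) h7
    obtain ⟨rfl, rfl⟩ := h8
    obtain ⟨h9, h10, h11⟩ := mem_R.1 hP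
    have h12 := sg_of_not h9 h10
    have h13 := sg_of_not hr hq
    rcases hP' with rfl | rfl
    · have := sg_ne_of_blk h11 hau
      omega
    · have := sg_ne_of_blk (h11.trans (blk_of_not hq).symm) hac
      omega

/-- the combinatorial non-crossing condition -/
theorem no_cross {a b c d : V} (hab : T.Adj a b) (hcd : T.Adj c d) (hac : a ≠ c) (had : a ≠ d)
    (hbc : b ≠ c) (hbd : b ≠ d) (h1 : T.lv b ≤ T.lv a) (h2 : T.lv c ≤ T.lv a)
    (h3 : T.lv d ≤ T.lv c)
    (hb : (T.x G c < T.x G b ∧ T.x G b < T.x G d) ∨ (T.x G d < T.x G b ∧ T.x G b < T.x G c)) :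
    T.sg a = T.sg b ∧ T.sg c ≠ T.sg a := by
  rcases hcd with ⟨h, rfl⟩ | ⟨h, rfl⟩
  · exact no_cross_aux (G := G) hab h (Or.inr rfl) had hac hbc h1 h2 h3 le_rfl hb.symm
  · exact no_cross_aux (G := G) hab h (Or.inl rfl) hac had hbd h1 h2 le_rfl h3 hb

lemma gap_le {u : V} : T.S G 1 (T.blk u) + 3 * G.g (T.lv (T.blk u)) ≤ T.S G 3 (T.blk u) +
    3 * G.g (T.lv (T.blk u)) := by
  have := S_mono (T := T) (G := G) (P := T.blk u) (show 1 ≤ 3 by norm_num)
  omega

lemma blk_len {P c : V} (hP : ¬ T.isQ P) (h : T.Ch P c) {L : ℕ} (hL : T.lv P ≤ L) :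
    T.S G 3 P + 3 * G.g (T.lv P) ≤ 2 * 2 ^ T.lv P * G.F L := by
  refine (S_three_le hP h).trans (Nat.mul_le_mul ?_ (G.F_mono hL))
  have hB' := B_le_sz hP h
  have hl : T.lv P = Nat.log 2 (min (2 * T.B P) (T.sz P)) := by
    unfold lv; rw [blk_of_not hP]
  have := Nat.lt_pow_succ_log_self (b := 2) (by norm_num) (min (2 * T.B P) (T.sz P))
  rw [← hl, pow_succ] at this
  omega

lemma x_sub_a_le {P : V} (hP : ¬ T.isQ P) {L : ℕ} (hL : T.lv P ≤ L) :
    T.x G P ≤ T.a G P + 2 * 2 ^ T.lv P * G.F L := by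
  by_cases h : ∃ c, T.Ch P c
  · obtain ⟨c, hc⟩ := h
    have h1 := blk_len (G := G) hP hc hL
    have h2 := (x_bounds (G := G) hP).2
    have := S_mono (T := T) (G := G) (P := P) (show 1 ≤ 3 by norm_num)
    omega
  · push Not at h
    have h1 := (x_self (G := G) hP).2
    rw [sz_leaf h] at h1
    simp only [Grid.f, Nat.log_one_right, one_mul] at h1
    have h2 : G.F 0 ≤ G.F L := G.F_mono (Nat.zero_le _)
    have h3 : 1 * G.F L ≤ 2 * 2 ^ T.lv P * G.F L :=
      Nat.mul_le_mul_right _ (by have := Nat.pos_of_ne_zero (pow_ne_zero (T.lv P) two_ne_zero); omega)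
    omega

/-- edges are short compared with the level of the higher end -/
theorem range {c : V} (hr : c ≠ T.r) {L : ℕ} (hL : ∀ u, T.lv u ≤ L) :
    T.x G c ≤ T.x G (T.par c) + 4 * 2 ^ max (T.lv c) (T.lv (T.par c)) * G.F L ∧
    T.x G (T.par c) ≤ T.x G c + 4 * 2 ^ max (T.lv c) (T.lv (T.par c)) * G.F L := by
  have hP := not_isQ_blk (T := T) (T.par c)
  obtain ⟨c0, hc0⟩ : ∃ c0, T.Ch (T.blk (T.par c)) c0 := by
    rcases (Desc.step c hr (desc_blk (T := T) (T.par c))).exists_ch with h | ⟨c0, h, -⟩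
    · have := (desc_blk (T := T) (T.par c)).dep_le
      have := T.dep_par c hr
      rw [← h] at *
      omega
    · exact ⟨c0, h⟩
  have h1 := blk_len (G := G) hP hc0 (hL _)
  have h2 := x_gap (T := T) (G := G) (T.par c)
  have h3 := gap_le (T := T) (G := G) (u := T.par c)
  rw [lv_blk] at h1 h2 h3
  have h4 : 2 * 2 ^ T.lv (T.par c) * G.F L ≤ 2 * 2 ^ max (T.lv c) (T.lv (T.par c)) * G.F L :=
    Nat.mul_le_mul_right _ (Nat.mul_le_mul_left _
      (Nat.pow_le_pow_right (by norm_num) (le_max_right _ _)))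
  have h5 : 2 * 2 ^ T.lv c * G.F L ≤ 2 * 2 ^ max (T.lv c) (T.lv (T.par c)) * G.F L :=
    Nat.mul_le_mul_right _ (Nat.mul_le_mul_left _
      (Nat.pow_le_pow_right (by norm_num) (le_max_left _ _)))
  have h6 : 4 * 2 ^ max (T.lv c) (T.lv (T.par c)) * G.F L =
    2 * (2 * 2 ^ max (T.lv c) (T.lv (T.par c)) * G.F L) := by ring
  by_cases hq : T.isQ c
  · have h7 := x_gap (T := T) (G := G) c
    rw [blk_of_isQ hq, ← blk_of_not hq.par, lv_blk] at h7
    omega
  · have hR := mem_R_blk hr hq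
    have h7 := x_self (G := G) hq
    have h8 := a_le_of_R (G := G) hR
    by_cases h9 : T.gam c ≤ 3
    · have h10 := a_le_S (G := G) hR h9
      rw [lv_blk] at h10
      split_ifs at h10 <;> omega
    · have h10 := a_of_four (G := G) hR (by have := gam_le (T := T) c; omega)
      have h11 := x_sub_a_le (G := G) hq (hL _)
      rw [lv_blk] at h10
      omega

variable (T G)

/-- virtual position of a neighbour `y` seen from `w` -/
noncomputable def vk (e : V → ℕ) (w y : V) : ℤ :=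
  if e y < e w then T.x G y else if T.sg y = T.sg w then -1 else T.x G w

variable {T G} {e : V → ℕ}

lemma vk_light (he : ∀ u v, T.lv u < T.lv v → e u < e v) {w y : V} (h : T.Ch w y)
    (hy : y ≠ T.hv w) : ¬ T.isQ y ∧ T.gam y ≤ 3 ∧ T.vk G e w y = T.x G y := by
  obtain ⟨hr, rfl⟩ := h
  have h1 : ¬ T.isQ y := fun h => hy h.eq_hv
  have h2 : T.gam y ≤ 3 := by
    have := gam_le (T := T) y
    have := mt (gam_eq_four (T := T) (c := y)).1 hy
    omega
  exact ⟨h1, h2, if_pos (he _ _ (lv_lt_par hr h1 h2))⟩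

lemma x_lt_of_kap {w y z : V} (hy : T.Ch w y) (hz : T.Ch w z) (hy' : ¬ T.isQ y)
    (hz' : ¬ T.isQ z) (h : T.kap y < T.kap z) : T.x G y < T.x G z := by
  have h1 := mem_R_blk hy.1 hy'
  have h2 := mem_R_blk hz.1 hz'
  rw [hy.2] at h1
  rw [hz.2] at h2
  have := a_order (G := G) h1 h2 h
  have := x_self (G := G) hy'
  have := x_self (G := G) hz'
  omega

lemma ne_hv_of_gam {w y : V} (hy : T.Ch w y) (h : T.gam y ≤ 3) : y ≠ T.hv w := by
  intro e
  have : T.gam y = 4 := gam_eq_four.2 (by rw [hy.2]; exact e)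
  omega

lemma vk_lt (he : ∀ u v, T.lv u < T.lv v → e u < e v) {w y z : V}
    (hy : T.Ch w y) (hz : T.Ch w z) (h3 : T.gam y ≤ 3) (h4 : T.gam z ≤ 3)
    (h : T.gam y < T.gam z ∨ (T.gam y = T.gam z ∧ T.key y < T.key z)) :
    T.vk G e w y < T.vk G e w z := by
  obtain ⟨h5, -, h6⟩ := vk_light (G := G) he hy (ne_hv_of_gam hy h3)
  obtain ⟨h7, -, h8⟩ := vk_light (G := G) he hz (ne_hv_of_gam hz h4)
  have := x_lt_of_kap (G := G) hy hz h5 h7 (kap_lt.2 h)
  omega

/-- facts at the first vertex of a block -/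
lemma vk_P (he : ∀ u v, T.lv u < T.lv v → e u < e v) {w y : V} (hw : ¬ T.isQ w)
    (hy : T.Ch w y) :
    (T.a G w : ℤ) ≤ T.vk G e w y ∧
    ((T.key y = T.key (T.hv w) ∧ (T.x G w : ℤ) ≤ T.vk G e w y ∧
      T.vk G e w y ≤ T.x G (T.hv w)) ∨
    (T.key y < T.key (T.hv w) ∧ T.gam y = 0 ∧ T.vk G e w y < T.x G w) ∨
    (T.key (T.hv w) < T.key y ∧ T.gam y = 2 ∧ (T.x G (T.hv w) : ℤ) < T.vk G e w y)) := by
  have hq := isQ_hv hw hy
  have h0 := x_of_isQ (G := G) hq
  rw [hy.hv.2] at h0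
  have h00 := x_self (G := G) hw
  by_cases h : y = T.hv w
  · have h1 := sg_of_isQ hq
    rw [hy.hv.2] at h1
    have h2 := sg_cases (T := T) w
    subst h
    unfold vk
    split_ifs <;> omega
  · obtain ⟨h1, h2, h3⟩ := vk_light (G := G) he hy h
    have hR := mem_R_blk hy.1 h1
    rw [hy.2] at hR
    have h4 := x_side (G := G) hR
    have h5 := x_side (G := G) (u := T.hv w) (c := y)
      (by rwa [blk_of_isQ hq, hy.hv.2, ← blk_of_not hw])
    have h6 := x_self (G := G) h1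
    have h7 := a_le_of_R (G := G) hR
    rw [blk_of_not hw] at h7
    have h8 : T.key y ≠ T.key (T.hv w) :=
      fun h8 => h (key_inj hy.1 hy.hv.1 (hy.2.trans hy.hv.2.symm) h8)
    have h9 : T.gam y = if T.key y < T.key (T.hv w) then 0 else 2 := by
      unfold gam
      rw [hy.2, if_neg h, if_neg hw]
    split_ifs at h9 <;> omega

lemma vk_P_par (he : ∀ u v, T.lv u < T.lv v → e u < e v) {w : V} (hw : ¬ T.isQ w)
    (hr : w ≠ T.r) : T.vk G e w (T.par w) < T.a G w := by
  unfold vk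
  have h1 := sg_of_not hr hw
  have h2 := x_side (G := G) (mem_R_blk hr hw)
  by_cases h3 : T.gam w ≤ 3
  · have := he _ _ (lv_lt_par hr hw h3)
    split_ifs <;> omega
  · split_ifs <;> omega

lemma vk_P_lt (he : ∀ u v, T.lv u < T.lv v → e u < e v) {w y z : V} (hw : ¬ T.isQ w)
    (hy : T.Ch w y) (hz : T.Ch w z) (h : T.key y < T.key z) :
    T.vk G e w y < T.vk G e w z := by
  have h1 := (vk_P (G := G) he hw hy).2
  have h2 := (vk_P (G := G) he hw hz).2
  have h0 := x_of_isQ (G := G) (isQ_hv hw hy)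
  rw [hy.hv.2] at h0
  have h3 := vk_lt (G := G) he hy hz
  omega

/-- facts at the second vertex of a block -/
lemma vk_Q (he : ∀ u v, T.lv u < T.lv v → e u < e v) {w y : V} (hw : T.isQ w)
    (hy : T.Ch w y) :
    (T.key y = T.key (T.hv w) ∧ (T.vk G e w y = -1 ∨ T.vk G e w y = T.x G (T.hv w))) ∨
    (T.key (T.hv w) < T.key y ∧ T.gam y = 1 ∧ 0 ≤ T.vk G e w y ∧
      T.vk G e w y < T.x G (T.par w)) ∨
    (T.key y < T.key (T.hv w) ∧ T.gam y = 3 ∧
      (T.x G w : ℤ) < T.vk G e w y ∧ T.vk G e w y < T.x G (T.hv w)) := by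
  have hn : ∀ y, T.Ch w y → ¬ T.isQ y := fun y hy h => h.par (hy.2 ▸ hw)
  by_cases h : y = T.hv w
  · have h1 := sg_of_not hy.1 (hn y hy)
    rw [hy.2] at h1
    left
    refine ⟨by rw [← h], ?_⟩
    unfold vk
    rw [← h]
    split_ifs <;> omega
  · obtain ⟨h1, h2, h3⟩ := vk_light (G := G) he hy h
    have hR := mem_R_blk hy.1 h1
    rw [hy.2] at hR
    have h4 := x_side (G := G) hR
    have h5 := x_side (G := G) (u := T.par w) (c := y)
      (by rwa [blk_of_not hw.par, ← blk_of_isQ hw])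
    have h6 := x_self (G := G) h1
    have h8 : T.key y ≠ T.key (T.hv w) :=
      fun h8 => h (key_inj hy.1 hy.hv.1 (hy.2.trans hy.hv.2.symm) h8)
    have h9 : T.gam y = if T.key (T.hv w) < T.key y then 1 else 3 := by
      unfold gam
      rw [hy.2, if_neg h, if_pos hw]
    have h10 : T.gam (T.hv w) = 4 := gam_eq_four.2 (by rw [hy.hv.2])
    have := x_lt_of_kap (G := G) hy hy.hv h1 (hn _ hy.hv) (kap_lt.2 (by omega))
    split_ifs at h9 <;> omega

lemma x_lt_hv {w y : V} (hw : T.isQ w) (hy : T.Ch w y) :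
    T.x G (T.par w) < T.x G w ∧ T.x G w < T.x G (T.hv w) := by
  have h0 := x_of_isQ (G := G) hw
  have h1 := G.g_pos (T.lv (T.par w))
  have hn : ¬ T.isQ (T.hv w) := fun h => h.par (hy.hv.2.symm ▸ hw)
  have hR := mem_R_blk hy.hv.1 hn
  rw [hy.hv.2] at hR
  have h4 := x_side (G := G) hR
  have h10 : T.gam (T.hv w) = 4 := gam_eq_four.2 (by rw [hy.hv.2])
  have := x_self (G := G) hn
  omega

theorem rot_children (he : ∀ u v, T.lv u < T.lv v → e u < e v) {w y z u : V}
    (hy : T.Ch w y) (hz : T.Ch w z) (hu : T.Ch w u) (h1 : T.key y < T.key z)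
    (h2 : T.key z < T.key u) : Cyc (T.vk G e w y) (T.vk G e w z) (T.vk G e w u) := by
  by_cases hw : T.isQ w
  · have h3 := vk_Q (G := G) he hw hy
    have h4 := vk_Q (G := G) he hw hz
    have h5 := vk_Q (G := G) he hw hu
    have h6 := vk_lt (G := G) he hy hz
    have h7 := vk_lt (G := G) he hz hu
    have h8 := x_lt_hv (G := G) hw hy
    unfold Cyc
    rcases h3 with h3 | h3 | h3 <;> rcases h4 with h4 | h4 | h4 <;>
      rcases h5 with h5 | h5 | h5 <;> omega
  · exact Or.inl ⟨vk_P_lt he hw hy hz h1, vk_P_lt he hw hz hu h2⟩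

theorem rot_parent (he : ∀ u v, T.lv u < T.lv v → e u < e v) {w z u : V} (hr : w ≠ T.r)
    (hz : T.Ch w z) (hu : T.Ch w u) (h2 : T.key z < T.key u) :
    Cyc (T.vk G e w (T.par w)) (T.vk G e w z) (T.vk G e w u) := by
  by_cases hw : T.isQ w
  · have h4 := vk_Q (G := G) he hw hz
    have h5 := vk_Q (G := G) he hw hu
    have h7 := vk_lt (G := G) he hz hu
    have h8 := x_lt_hv (G := G) hw hz
    have h3 : (T.x G (T.par w) : ℤ) ≤ T.vk G e w (T.par w) ∧
        T.vk G e w (T.par w) ≤ T.x G w := by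
      have h1 := sg_of_isQ hw
      have h2 := sg_cases (T := T) w
      unfold vk
      split_ifs <;> omega
    unfold Cyc
    rcases h4 with h4 | h4 | h4 <;> rcases h5 with h5 | h5 | h5 <;> omega
  · have h1 := vk_P_par (G := G) he hw hr
    have h3 := (vk_P (G := G) he hw hz).1
    exact Or.inl ⟨by omega, vk_P_lt he hw hz hu h2⟩

end RT

end Pool.Agent.P.MP_14bd88_co
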