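import Mathlib

namespace Pool.Agent.P.MP_14bd88_co

open Finset

/-- rooted trees with ordered children, given by a parent map -/
structure RT (V : Type) where
  r : V
  par : V → V
  dep : V → ℕ
  ord : V → ℤ
  dep_r : dep r = 0
  dep_par : ∀ v, v ≠ r → dep v = dep (par v) + 1
  ord_inj : ∀ u v, u ≠ r → v ≠ r → par u = par v → ord u = ord v → u = v

namespace RT

variable {V : Type} (T : RT V)

/-- `c` is a child of `v` -/
def Ch (v c : V) : Prop := c ≠ T.r ∧ T.par c = v

/-- descendants -/
inductive Desc (v : V) : V → Prop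
  | refl : Desc v v
  | step (w : V) (hw : w ≠ T.r) (h : Desc v (T.par w)) : Desc v w

variable {T}

lemma Ch.dep {v c : V} (h : T.Ch v c) : T.dep c = T.dep v + 1 := by
  rw [T.dep_par c h.1, h.2]

lemma Ch.ne {v c : V} (h : T.Ch v c) : c ≠ v := by
  intro e
  have := h.dep
  rw [e] at this
  omega

lemma Desc.dep_le {v w : V} (h : T.Desc v w) : T.dep v ≤ T.dep w := by
  induction h with
  | refl => exact le_rfl
  | step w hw _ ih => rw [T.dep_par w hw]; omega

lemma Desc.cases {v w : V} (h : T.Desc v w) : w = v ∨ (w ≠ T.r ∧ T.Desc v (T.par w)) := by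
  cases h with
  | refl => exact Or.inl rfl
  | step w hw h => exact Or.inr ⟨hw, h⟩

lemma Desc.eq_of_dep {v w : V} (h : T.Desc v w) (hd : T.dep w ≤ T.dep v) : w = v := by
  rcases h.cases with h1 | ⟨h1, h2⟩
  · exact h1
  · have := h2.dep_le
    have := T.dep_par w h1
    omega

lemma Desc.trans {u v w : V} (h1 : T.Desc u v) (h2 : T.Desc v w) : T.Desc u w := by
  induction h2 with
  | refl => exact h1
  | step w hw _ ih => exact Desc.step w hw ih

lemma Ch.desc {v c : V} (h : T.Ch v c) : T.Desc v c :=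
  Desc.step c h.1 (h.2 ▸ Desc.refl)

lemma Desc.exists_ch {v w : V} (h : T.Desc v w) : w = v ∨ ∃ c, T.Ch v c ∧ T.Desc c w := by
  induction h with
  | refl => exact Or.inl rfl
  | step w hw _ ih =>
    rcases ih with h1 | ⟨c, hc, h1⟩
    · exact Or.inr ⟨w, ⟨hw, h1⟩, Desc.refl⟩
    · exact Or.inr ⟨c, hc, Desc.step w hw h1⟩

lemma Desc.total {u v w : V} (h1 : T.Desc u w) (h2 : T.Desc v w) : T.Desc u v ∨ T.Desc v u := by
  induction h1 with
  | refl => exact Or.inr h2
  | step w hw h ih =>
    rcases h2.cases with h3 | ⟨-, h3⟩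
    · exact Or.inl (h3 ▸ Desc.step w hw h)
    · exact ih h3

lemma Desc.eq_of_dep_eq {u v w : V} (h1 : T.Desc u w) (h2 : T.Desc v w)
    (hd : T.dep u = T.dep v) : u = v := by
  rcases h1.total h2 with h | h
  · exact (h.eq_of_dep hd.ge).symm
  · exact h.eq_of_dep hd.le

lemma desc_root (w : V) : T.Desc T.r w := by
  induction hn : T.dep w generalizing w with
  | zero =>
    by_cases h : w = T.r
    · exact h ▸ Desc.refl
    · have := T.dep_par w h
      omega
  | succ n ih =>
    have h : w ≠ T.r := by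
      intro h
      rw [h, T.dep_r] at hn
      omega
    have := T.dep_par w h
    exact Desc.step w h (ih _ (by omega))

/-- top-down recursion -/
lemma exists_rec {α : Type} (init : α) (step : V → α → α) :
    ∃ f : V → α, f T.r = init ∧ ∀ v, v ≠ T.r → f v = step v (f (T.par v)) := by
  let F : ℕ → V → α := fun n => Nat.rec (fun _ => init) (fun _ ih v => step v (ih (T.par v))) n
  refine ⟨fun v => F (T.dep v) v, ?_, fun v hv => ?_⟩
  · simp only [T.dep_r]; rfl
  · simp only [T.dep_par v hv]; rfl

variable [Fintype V] (T)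

open Classical in
/-- size of the subtree -/
noncomputable def sz (v : V) : ℕ := (univ.filter (fun w => T.Desc v w)).card

open Classical in
/-- set of children -/
noncomputable def chs (v : V) : Finset V := univ.filter (fun c => T.Ch v c)

variable {T}

@[simp] lemma mem_chs {v c : V} : c ∈ T.chs v ↔ T.Ch v c := by
  simp [chs]

lemma sz_eq (v : V) : T.sz v = 1 + ∑ c ∈ T.chs v, T.sz c := by
  classical
  have h : univ.filter (fun w => T.Desc v w) =
      insert v ((T.chs v).biUnion (fun c => univ.filter (fun w => T.Desc c w))) := by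
    ext w
    simp only [mem_filter, mem_univ, true_and, mem_insert, mem_biUnion, mem_chs]
    constructor
    · exact fun h => h.exists_ch
    · rintro (rfl | ⟨c, hc, h⟩)
      · exact Desc.refl
      · exact hc.desc.trans h
  have e1 : T.sz v = (univ.filter (fun w => T.Desc v w)).card := by
    unfold sz; congr
  rw [e1, h, card_insert_of_notMem, card_biUnion, add_comm]
  · congr 1
  · intro c hc c' hc' hne
    simp only [mem_coe, mem_chs] at hc hc'
    rw [Function.onFun, disjoint_filter]
    intro w _ h1 h2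
    exact hne (h1.eq_of_dep_eq h2 (by rw [hc.dep, hc'.dep]))
  · simp only [mem_biUnion, mem_chs, mem_filter, mem_univ, true_and, not_exists, not_and]
    intro c hc h
    have := h.dep_le
    have := hc.dep
    omega

lemma sz_pos (v : V) : 0 < T.sz v := by
  rw [sz_eq]; omega

lemma Ch.sz_lt {v c : V} (h : T.Ch v c) : T.sz c < T.sz v := by
  rw [sz_eq v]
  have := single_le_sum (f := T.sz) (s := T.chs v) (fun _ _ => Nat.zero_le _) (mem_chs.2 h)
  omega

lemma Desc.sz_le {v w : V} (h : T.Desc v w) : T.sz w ≤ T.sz v := by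
  induction h with
  | refl => exact le_rfl
  | step w hw _ ih => exact (Ch.sz_lt (T := T) ⟨hw, rfl⟩).le.trans ih

lemma sz_root : T.sz T.r = Fintype.card V := by
  classical
  unfold sz
  simp [desc_root]

lemma exists_hv (v : V) : ∃ h : V, ∀ c, T.Ch v c → T.Ch v h ∧ T.sz c ≤ T.sz h := by
  by_cases hne : (T.chs v).Nonempty
  · obtain ⟨h, hh, hm⟩ := exists_max_image (T.chs v) T.sz hne
    exact ⟨h, fun c hc => ⟨mem_chs.1 hh, hm c (mem_chs.2 hc)⟩⟩
  · exact ⟨v, fun c hc => absurd ⟨c, mem_chs.2 hc⟩ hne⟩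

variable (T)

/-- heavy child -/
noncomputable def hv (v : V) : V := (exists_hv (T := T) v).choose

variable {T}

lemma Ch.hv {v c : V} (h : T.Ch v c) : T.Ch v (T.hv v) :=
  ((exists_hv (T := T) v).choose_spec c h).1

lemma Ch.two_sz_le {v c : V} (h : T.Ch v c) (hc : c ≠ T.hv v) : 2 * T.sz c ≤ T.sz v := by
  classical
  have h1 : T.sz c ≤ T.sz (T.hv v) := ((exists_hv (T := T) v).choose_spec c h).2
  have h2 : ∑ x ∈ {c, T.hv v}, T.sz x ≤ ∑ x ∈ T.chs v, T.sz x := by
    refine sum_le_sum_of_subset ?_
    intro x hx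
    simp only [mem_insert, mem_singleton] at hx
    rcases hx with rfl | rfl
    · exact mem_chs.2 h
    · exact mem_chs.2 h.hv
  rw [sum_pair hc] at h2
  rw [sz_eq v]
  omega

end RT

end Pool.Agent.P.MP_14bd88_co
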